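import Pool.Agent.K1H29.SH.Phy

/-!
# Global regularity for the Navier-Stokes equations with additional damping
-/

open Set ComplexConjugate Filter Topology MeasureTheory
open scoped ContDiff

namespace Pool.Agent.K1H29.SH

open Pool.Agent.H356R3.NS

/-- Smooth periodic divergence free vector fields. -/
structure Data (v : R3 → R3) : Prop where
  smooth : ContDiff ℝ ∞ v
  periodic : ∀ x j, v (x + Pi.single j 1) = v x
  divFree : ∀ x, ∑ i, pd i (fun y => v y i) x = 0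

/-- `∫ |v|²` over the period cell. -/
noncomputable def energy (v : R3 → R3) : ℝ := ∑ i, ∫ x in Icc (0 : R3) 1, v x i ^ 2

variable {v : R3 → R3}

lemma Data.sp (h : Data v) (i : Fin 3) : H459R3.NS.SP (fun y => v y i) where
  smooth := (contDiff_apply ℝ ℝ i).comp h.smooth
  per := fun j x => congrFun (h.periodic x j) i

lemma fc_eq_fr (i : Fin 3) (k : K) : fc v k i = H459R3.NS.fr (fun y => v y i) k :=
  four_eq_fr (fun y => v y i) k

lemma Data.inv (h : Data v) (x : R3) (i : Fin 3) : (∑' k, fc v k i * ex k x).re = v x i := by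
  have h1 := H459R3.NS.S_fr (h.sp i) x
  unfold H459R3.NS.S at h1
  simp only [ee_eq_ex, ← fc_eq_fr] at h1
  rw [h1, Complex.ofReal_re]

lemma Data.hE (h : Data v) (B : Finset K) : ∑ k ∈ B, en (fc v k) ≤ energy v := by
  unfold en energy
  rw [Finset.sum_comm]
  refine Finset.sum_le_sum fun i _ => ?_
  have h1 := H459R3.NS.n2_fr (h.sp i)
  rw [H459R3.NS.n2_sq] at h1
  have h2 := H459R3.NS.summable_sq (H459R3.NS.rap_fr (h.sp i)).summable
  calc ∑ k ∈ B, ‖fc v k i‖ ^ 2 = ∑ k ∈ B, ‖H459R3.NS.fr (fun y => v y i) k‖ ^ 2 :=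
        Finset.sum_congr rfl fun k _ => by rw [fc_eq_fr]
    _ ≤ ∑' k, ‖H459R3.NS.fr (fun y => v y i) k‖ ^ 2 := h2.sum_le_tsum _ fun _ _ => by positivity
    _ = _ := h1

lemma Data.hV (h : Data v) (σ : ℕ) :
    ∃ C, ∀ B : Finset K, ∑ k ∈ B, nn k ^ (2 * σ) * en (fc v k) ≤ C := by
  refine ⟨∑ i, (∑' k, (H459R3.NS.N k : ℝ) ^ σ * ‖H459R3.NS.fr (fun y => v y i) k‖) ^ 2, fun B => ?_⟩
  have h1 : ∑ k ∈ B, nn k ^ (2 * σ) * en (fc v k)
      = ∑ i, ∑ k ∈ B, ((H459R3.NS.N k : ℝ) ^ σ * ‖H459R3.NS.fr (fun y => v y i) k‖) ^ 2 := by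
    rw [Finset.sum_comm]
    refine Finset.sum_congr rfl fun k _ => ?_
    unfold en
    rw [Finset.mul_sum]
    refine Finset.sum_congr rfl fun i _ => ?_
    rw [fc_eq_fr, mul_pow, ← pow_mul, mul_comm σ 2]
    rfl
  rw [h1]
  refine Finset.sum_le_sum fun i _ => ?_
  have h2 := (H459R3.NS.rap_fr (h.sp i)) σ
  refine (Finset.sum_sq_le_sq_sum_of_nonneg fun k _ => by positivity).trans ?_
  exact pow_le_pow_left₀ (Finset.sum_nonneg fun k _ => by positivity)
    (h2.sum_le_tsum _ fun _ _ => by positivity) 2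

/-- the tail of the initial value -/
lemma tail_bound {V : K → C3} {C : ℝ} (hC : ∀ B : Finset K, ∑ k ∈ B, nn k ^ (2 * 3) * en (V k) ≤ C)
    (i : ℕ) (B : Finset K) : Fe B i V ≤ 64 * C / 64 ^ i ∧ We 3 B i V ≤ C / 64 ^ i := by
  have hC0 : 0 ≤ C := (hC ∅).trans' (by simp)
  have h64 : ((2 : ℝ) ^ i) ^ 6 = 64 ^ i := by rw [← pow_mul, mul_comm, pow_mul]; norm_num
  have hp : (0 : ℝ) < 64 ^ i := by positivity
  constructor
  · have h1 : Fe B i V ≤ ∑ k ∈ B, (64 / 64 ^ i) * (nn k ^ (2 * 3) * en (V k)) := by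
      unfold Fe
      refine Finset.sum_le_sum fun k _ => ?_
      rw [← mul_assoc]
      apply mul_le_mul_of_nonneg_right _ (en_nonneg _)
      rcases le_or_gt (2 * nn k) (2 ^ i) with h | h
      · rw [W_eq_zero (by positivity) h]
        have := nn_nonneg k
        positivity
      · refine (W_le_one _ _).trans ?_
        have h2 : (2 ^ i : ℝ) ^ 6 ≤ (2 * nn k) ^ 6 := pow_le_pow_left₀ (by positivity) h.le 6
        rw [h64, mul_pow] at h2
        rw [div_mul_eq_mul_div, le_div_iff₀ hp]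
        norm_num at h2 ⊢
        linarith
    refine h1.trans ?_
    rw [← Finset.mul_sum]
    calc 64 / 64 ^ i * ∑ k ∈ B, nn k ^ (2 * 3) * en (V k) ≤ 64 / 64 ^ i * C :=
          mul_le_mul_of_nonneg_left (hC B) (by positivity)
      _ = _ := by ring
  · have h1 : We 3 B i V ≤ ∑ k ∈ B, (1 / 64 ^ i) * (nn k ^ (2 * 3) * en (V k)) := by
      unfold We
      refine Finset.sum_le_sum fun k _ => ?_
      rw [← mul_assoc]
      apply mul_le_mul_of_nonneg_right _ (en_nonneg _)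
      rcases le_or_gt (nn k) (2 ^ i) with h | h
      · rw [rh_eq_zero (by positivity) h]
        have := nn_nonneg k
        positivity
      · unfold rh th
        rw [max_eq_right ((one_le_div (by positivity)).2 h.le), ← pow_mul, div_pow, h64]
        have : nn k ^ (3 * 2) / 64 ^ i = 1 / 64 ^ i * nn k ^ (2 * 3) := by norm_num; ring
        linarith
    refine h1.trans ?_
    rw [← Finset.mul_sum]
    calc 1 / 64 ^ i * ∑ k ∈ B, nn k ^ (2 * 3) * en (V k) ≤ 1 / 64 ^ i * C :=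
          mul_le_mul_of_nonneg_left (hC B) (by positivity)
      _ = _ := by ring

lemma fn_eq (k : K) : fn k = nk k := rfl

/-- the core theorem -/
theorem core {ν : ℝ} (hν : 0 ≤ ν) {d : K → ℝ} (hd0 : ∀ k, 0 ≤ d k) (hde : ∀ k, d (-k) = d k)
    {C : ℝ} {r : ℕ} (hdp : ∀ k, d k ≤ C * (1 + fn k) ^ r) (hv : Data v)
    {μ : ℕ → ℝ} (hμ0 : ∀ n, 0 ≤ μ n)
    (hμm : ∀ i k, (2 : ℝ) ^ i < 2 * nn k → μ i ≤ 4 * Real.pi ^ 2 * ν * fn k ^ 2 + d k)
    (hinf : ∀ R, ∃ n, R < μ n) {Cd : ℝ}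
    (hC3 : ∀ B : Finset K, ∑ k ∈ B, nn k ^ (2 * 3) * en (fc v k) ≤ Cd) {n0 n1 : ℕ}
    (hin : ∀ i, n0 < i → i ≤ n1 → 512 * Cd < (eps * μ i) ^ 2 * 2 ^ i)
    (hdiv : (512 * 8000 + 9 / eps) * √(energy v) < ∑ i ∈ Finset.Ioc n0 n1, μ i / lam ^ i) :
    ∃ u p, AdmD ν d v u p := by
  have hC30 : 0 ≤ Cd := (hC3 ∅).trans' (by simp)
  set m : K → ℝ := fun k => 4 * Real.pi ^ 2 * ν * Pool.Agent.H356R3.NS.sq k + d k with hm
  have hm0 : ∀ k, 0 ≤ m k := fun k => by
    have := hd0 k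
    have := sq_nonneg' k
    positivity
  have hme : ∀ k, m (-k) = m k := fun k => by simp only [hm, sq_neg, hde]
  have hμm' : ∀ i k, (2 : ℝ) ^ i < 2 * nn k → μ i ≤ m k := fun i k hk => by
    have := hμm i k hk
    rwa [fn_eq, nk_sq] at this
  have hlam : ∀ i : ℕ, (lam ^ i) ^ 2 = 32 ^ i := fun i => by
    rw [← pow_mul, mul_comm, pow_mul, lam_sq]
  have hkey : ∀ i, n0 < i → i ≤ n1 → 512 * Cd / 64 ^ i < (eps * (μ i / lam ^ i)) ^ 2 := by
    intro i h1 h2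
    have h3 := hin i h1 h2
    have e : (eps * (μ i / lam ^ i)) ^ 2 = (eps * μ i) ^ 2 / 32 ^ i := by
      rw [← hlam i]; ring
    rw [e, div_lt_div_iff₀ (by positivity) (by positivity)]
    have e2 : (64 : ℝ) ^ i = 2 ^ i * 32 ^ i := by rw [← mul_pow]; norm_num
    rw [e2]
    have : (0 : ℝ) < 32 ^ i := by positivity
    nlinarith
  have hbd := unif (m := m) (V := fc v) hm0 hμ0 hμm' hinf hv.hE hv.hV (n0 := n0) (n1 := n1)
    (fun i h1 h2 B => by
      have h3 := (tail_bound hC3 i B).1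
      have h4 := hkey i h1 h2
      have : 512 * Cd / 64 ^ i = 8 * (64 * Cd / 64 ^ i) := by ring
      linarith)
    (fun i h1 h2 B => by
      have h3 := (tail_bound hC3 i B).2
      have h4 := hkey i h1 h2
      have h5 : Cd / 64 ^ i ≤ 512 * Cd / 64 ^ i :=
        div_le_div_of_nonneg_right (by linarith) (by positivity)
      linarith) hdiv
  have hdiv' : ∀ k, dt k (fc v k) = 0 :=
    fun k => fc_div (hv.smooth.of_le (by norm_cast)) hv.periodic hv.divFree k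
  have hbd' : ∀ p : ℕ, ∃ b : K → ℝ, Summable b ∧ ∀ (B : Finset K) (T : ℝ) (u : ℝ → K → C3), 0 ≤ T →
      Gal m B T (fc v) u → ∀ t ∈ Icc 0 T, ∀ k, pw k ^ p * ‖u t k‖ ≤ b k := by
    intro p
    obtain ⟨b, hb, hb'⟩ := dom_of_bound (P := fun w => ∃ (B : Finset K) (T : ℝ) (u : ℝ → K → C3),
      0 ≤ T ∧ Gal m B T (fc v) u ∧ ∃ t ∈ Icc 0 T, u t = w) (fun σ => by
        obtain ⟨C, hC⟩ := hbd σ
        refine ⟨C, ?_⟩
        rintro w ⟨B, T, u, hT, hu, t, ht, rfl⟩ k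
        exact hC B T u hT hu t ht k) p
    exact ⟨b, hb, fun B T u hT hu t ht k => hb' _ ⟨B, T, u, hT, hu, t, ht, rfl⟩ k⟩
  obtain ⟨u, h1, h2, h3, h4, h5, h6⟩ := exists_limit hm0 hme (fc_sym v) hdiv' hbd'
  have hF : FSol m (fc v) u := ⟨h1, h2, h3, h4, h5, h6⟩
  have hC0 : 0 ≤ C := by
    have := (hd0 0).trans (hdp 0)
    have h7 : (0 : ℝ) < (1 + fn 0) ^ r := by
      have : 0 ≤ fn 0 := Real.sqrt_nonneg _
      positivity
    exact nonneg_of_mul_nonneg_left this h7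
  exact ⟨_, _, hF.physical (C := C) (r := r) (fun k => by
    rw [abs_of_nonneg (hd0 k)]
    refine (hdp k).trans (mul_le_mul_of_nonneg_left ?_ hC0)
    apply pow_le_pow_left₀ (by rw [fn_eq]; have := nk_nonneg k; positivity)
    have := nk_le_l1 k
    rw [fn_eq]
    unfold pw
    linarith) hv.inv⟩

lemma lam_pow (n : ℕ) : lam ^ n = (2 : ℝ) ^ ((5 / 2 : ℝ) * n) := by
  rw [Real.rpow_mul (by norm_num), Real.rpow_natCast]
  congr 1
  unfold lam
  rw [Real.sqrt_eq_rpow, show (32 : ℝ) = 2 ^ (5 : ℝ) by norm_num, ← Real.rpow_mul (by norm_num)]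
  norm_num

/-- **The sharp Dini condition.** -/
theorem dini {ν : ℝ} (hν : 0 ≤ ν) {d : K → ℝ} (hd0 : ∀ k, 0 ≤ d k) (hde : ∀ k, d (-k) = d k)
    {C : ℝ} {r : ℕ} (hdp : ∀ k, d k ≤ C * (1 + fn k) ^ r)
    {μ : ℕ → ℝ} (hμ0 : ∀ n, 0 ≤ μ n)
    (hμm : ∀ n k, (2 : ℝ) ^ n ≤ fn k → μ n ≤ 4 * Real.pi ^ 2 * ν * fn k ^ 2 + d k)
    (hdiv : ¬ Summable fun n : ℕ => μ n / (2 : ℝ) ^ ((5 / 2 : ℝ) * n)) (hv : Data v) :
    ∃ u p, AdmD ν d v u p := by
  simp only [← lam_pow] at hdiv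
  have hlp := lam_pos
  -- the running maximum
  set M : ℕ → ℝ := fun n => (Finset.range (n + 1)).sup' ⟨0, by simp⟩ μ with hM
  have hMμ : ∀ n, μ n ≤ M n := fun n => Finset.le_sup' μ (by simp)
  have hMmono : ∀ m n, m ≤ n → M m ≤ M n := fun m n hmn =>
    Finset.sup'_mono μ (Finset.range_mono (by omega)) _
  have hM0 : ∀ n, 0 ≤ M n := fun n => (hμ0 n).trans (hMμ n)
  have hMm : ∀ n k, (2 : ℝ) ^ n ≤ fn k → M n ≤ 4 * Real.pi ^ 2 * ν * fn k ^ 2 + d k := by
    intro n k hk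
    refine Finset.sup'_le _ _ fun j hj => hμm j k ?_
    refine le_trans ?_ hk
    exact pow_le_pow_right₀ (by norm_num) (by have := Finset.mem_range.1 hj; omega)
  -- shift
  set μ' : ℕ → ℝ := fun i => M (i - 1) with hμ'
  have hμ'0 : ∀ i, 0 ≤ μ' i := fun i => hM0 _
  have hμ'm : ∀ i k, (2 : ℝ) ^ i < 2 * nn k → μ' i ≤ 4 * Real.pi ^ 2 * ν * fn k ^ 2 + d k := by
    intro i k hk
    exact hMm _ _ ((half hk.le).trans (nn_le_nk k))
  have hns : ¬ Summable fun i : ℕ => μ' i / lam ^ i := by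
    intro hs
    apply hdiv
    have h1 := (summable_nat_add_iff 1).2 hs
    refine (h1.mul_left lam).of_nonneg_of_le (fun n => div_nonneg (hμ0 n) (by positivity)) fun n => ?_
    show μ n / lam ^ n ≤ lam * (M (n + 1 - 1) / lam ^ (n + 1))
    rw [Nat.add_sub_cancel, pow_succ]
    calc μ n / lam ^ n ≤ M n / lam ^ n := div_le_div_of_nonneg_right (hMμ n) (by positivity)
      _ = _ := by field_simp
  have hinf : ∀ R, ∃ n, R < μ' n := by
    intro R
    by_contra hc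
    push Not at hc
    apply hns
    have hg : Summable fun i : ℕ => |R| * (1 / 4 : ℝ) ^ i :=
      (summable_geometric_of_lt_one (by norm_num) (by norm_num)).mul_left _
    refine hg.of_nonneg_of_le (fun n => div_nonneg (hμ'0 n) (by positivity)) fun i => ?_
    rw [one_div, inv_pow, ← div_eq_mul_inv]
    apply div_le_div₀ (abs_nonneg _) ((hc i).trans (le_abs_self _)) (by positivity)
    exact pow_le_pow_left₀ (by norm_num) four_le_lam i
  obtain ⟨Cd, hC3⟩ := hv.hV 3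
  have hC30 : 0 ≤ Cd := (hC3 ∅).trans' (by simp)
  obtain ⟨a, ha⟩ := hinf 0
  have hmono' : ∀ i, a ≤ i → μ' a ≤ μ' i := fun i hi => hMmono _ _ (by omega)
  obtain ⟨b, hb⟩ := pow_unbounded_of_one_lt (512 * Cd / (eps * μ' a) ^ 2) (by norm_num : (1 : ℝ) < 2)
  set n0 := max a b with hn0
  have hin : ∀ i, n0 < i → 512 * Cd < (eps * μ' i) ^ 2 * 2 ^ i := by
    intro i hi
    have h1 : a ≤ i := by omega
    have h2 : b ≤ i := by omega
    have h3 : 0 < (eps * μ' a) ^ 2 := by have := eps_pos; positivity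
    rw [div_lt_iff₀ h3] at hb
    have h4 : (2 : ℝ) ^ b ≤ 2 ^ i := pow_le_pow_right₀ (by norm_num) h2
    have h5 : (eps * μ' a) ^ 2 ≤ (eps * μ' i) ^ 2 := by
      apply pow_le_pow_left₀ (by have := eps_pos; positivity)
      exact mul_le_mul_of_nonneg_left (hmono' i h1) eps_pos.le
    calc 512 * Cd < 2 ^ b * (eps * μ' a) ^ 2 := hb
      _ ≤ 2 ^ i * (eps * μ' i) ^ 2 := mul_le_mul h4 h5 h3.le (by positivity)
      _ = _ := by ring
  -- divergence
  have hns' : ¬ Summable fun i : ℕ => μ' (i + (n0 + 1)) / lam ^ (i + (n0 + 1)) := fun h =>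
    hns ((summable_nat_add_iff (n0 + 1)).1 h)
  have hnn' : ∀ i : ℕ, 0 ≤ μ' (i + (n0 + 1)) / lam ^ (i + (n0 + 1)) := fun i =>
    div_nonneg (hμ'0 _) (by positivity)
  have htend := (not_summable_iff_tendsto_nat_atTop_of_nonneg hnn').1 hns'
  obtain ⟨n, hn⟩ := (htend.eventually_gt_atTop ((512 * 8000 + 9 / eps) * √(energy v))).exists
  have hsum : ∑ i ∈ Finset.range n, μ' (i + (n0 + 1)) / lam ^ (i + (n0 + 1))
      = ∑ i ∈ Finset.Ioc n0 (n0 + n), μ' i / lam ^ i := by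
    have e : Finset.Ioc n0 (n0 + n) = Finset.Ico (n0 + 1) (n0 + 1 + n) := by
      ext i; simp only [Finset.mem_Ioc, Finset.mem_Ico]; omega
    rw [e, Finset.sum_Ico_eq_sum_range, Nat.add_sub_cancel_left]
    exact Finset.sum_congr rfl fun i _ => by rw [add_comm i]
  rw [hsum] at hn
  exact core hν hd0 hde hdp hv hμ'0 hμ'm hinf hC3 (fun i h1 _ => hin i h1) hn

end Pool.Agent.K1H29.SH
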