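import Pool.Agent.H356R3.NS.Wave
import Pool.Agent.H459R3.NS.Thin

/-!
# The flux of a weighted energy on the Fourier side
-/

open Set ComplexConjugate

namespace Pool.Agent.K1H29.SH

open Pool.Agent.H356R3.NS

/-- the sup norm of a frequency -/
noncomputable def nn (k : K) : ℝ := (H459R3.NS.N k : ℝ)

lemma nn_nonneg (k : K) : 0 ≤ nn k := Nat.cast_nonneg _

lemma nn_neg (k : K) : nn (-k) = nn k := by unfold nn; rw [H459R3.NS.N_neg]

lemma abs_le_nn (k : K) (j : Fin 3) : |(k j : ℝ)| ≤ nn k := by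
  have := (H459R3.NS.N_le_iff k _).1 le_rfl j
  unfold nn
  rw [← Int.cast_abs]
  exact_mod_cast this

lemma nn_le_iff {k : K} {r : ℕ} : nn k ≤ r ↔ ∀ j, |k j| ≤ r := by
  unfold nn
  rw [Nat.cast_le]
  exact H459R3.NS.N_le_iff k r

lemma nn_add (k l : K) : nn (k + l) ≤ nn k + nn l := by
  have h : H459R3.NS.N (k + l) ≤ H459R3.NS.N k + H459R3.NS.N l := by
    rw [H459R3.NS.N_le_iff]
    intro j
    have h1 := (H459R3.NS.N_le_iff k _).1 le_rfl j
    have h2 := (H459R3.NS.N_le_iff l _).1 le_rfl j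
    have := abs_add_le (k j) (l j)
    simp only [Pi.add_apply]
    push_cast
    linarith
  unfold nn
  exact_mod_cast h

lemma nn_sub_le (k l : K) : nn k ≤ nn l + nn (k - l) := by
  have := nn_add l (k - l)
  rwa [add_sub_cancel] at this

lemma nn_sub_le' (k l : K) : nn (k - l) ≤ nn k + nn l := by
  have := nn_add k (-l)
  rwa [nn_neg, ← sub_eq_add_neg] at this

lemma nn_eq_zero {k : K} : nn k = 0 ↔ k = 0 := by
  unfold nn
  rw [Nat.cast_eq_zero, H459R3.NS.N_eq_zero]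

lemma one_le_nn {k : K} (h : k ≠ 0) : 1 ≤ nn k := by
  have h1 : nn k ≠ 0 := fun h2 => h (nn_eq_zero.1 h2)
  unfold nn at *
  have : H459R3.NS.N k ≠ 0 := by exact_mod_cast h1
  exact_mod_cast Nat.one_le_iff_ne_zero.2 this

lemma nn_le_nk (k : K) : nn k ≤ nk k := by
  by_cases hk : k = 0
  · rw [hk, nn_eq_zero.2 rfl]; exact nk_nonneg _
  · obtain ⟨j, -, hj⟩ := Finset.exists_mem_eq_sup (Finset.univ : Finset (Fin 3)) ⟨0, Finset.mem_univ _⟩
      (fun j => (k j).natAbs)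
    have : nn k = |(k j : ℝ)| := by
      unfold nn H459R3.NS.N
      rw [hj, Nat.cast_natAbs, Int.cast_abs]
    rw [this]
    exact abs_le_nk k j

lemma norm_dt_le (k : K) (v : C3) : ‖dt k v‖ ≤ 3 * nn k * ‖v‖ := by
  unfold dt
  refine (norm_sum_le _ _).trans ?_
  have : ∀ j ∈ (Finset.univ : Finset (Fin 3)), ‖(k j : ℂ) * v j‖ ≤ nn k * ‖v‖ := by
    intro j _
    rw [norm_mul, Complex.norm_intCast]
    exact mul_le_mul (abs_le_nn k j) (norm_le_pi_norm v j) (norm_nonneg _) (nn_nonneg k)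
  refine (Finset.sum_le_sum this).trans ?_
  rw [Finset.sum_const, Finset.card_univ, Fintype.card_fin, nsmul_eq_mul]
  push_cast
  linarith

lemma dt_sub (k l : K) (v : C3) : dt (k - l) v = dt k v - dt l v := by
  unfold dt
  rw [← Finset.sum_sub_distrib]
  refine Finset.sum_congr rfl fun j _ => ?_
  simp only [Pi.sub_apply]
  push_cast
  ring

/-- `v · conj w` -/
noncomputable def ipc (v w : C3) : ℂ := ∑ m, v m * conj (w m)

lemma norm_ipc_le (v w : C3) : ‖ipc v w‖ ≤ 3 * (‖v‖ * ‖w‖) := by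
  unfold ipc
  refine (norm_sum_le _ _).trans ?_
  have : ∀ j ∈ (Finset.univ : Finset (Fin 3)), ‖v j * conj (w j)‖ ≤ ‖v‖ * ‖w‖ := by
    intro j _
    rw [norm_mul, RCLike.norm_conj]
    exact mul_le_mul (norm_le_pi_norm v j) (norm_le_pi_norm w j) (norm_nonneg _) (norm_nonneg _)
  refine (Finset.sum_le_sum this).trans ?_
  rw [Finset.sum_const, Finset.card_univ, Fintype.card_fin, nsmul_eq_mul]
  push_cast
  linarith

/-- energy of a coefficient -/
noncomputable def en (v : C3) : ℝ := ∑ m, ‖v m‖ ^ 2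

lemma en_nonneg (v : C3) : 0 ≤ en v := Finset.sum_nonneg fun _ _ => by positivity

lemma norm_sq_le_en (v : C3) : ‖v‖ ^ 2 ≤ en v := by
  have h1 : ‖v‖ ≤ √(en v) := by
    rw [pi_norm_le_iff_of_nonneg (Real.sqrt_nonneg _)]
    intro i
    apply Real.le_sqrt_of_sq_le
    exact Finset.single_le_sum (f := fun m => ‖v m‖ ^ 2) (fun _ _ => by positivity)
      (Finset.mem_univ i)
  calc ‖v‖ ^ 2 ≤ (√(en v)) ^ 2 := pow_le_pow_left₀ (norm_nonneg _) h1 2
    _ = en v := Real.sq_sqrt (en_nonneg v)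

lemma en_le_norm_sq (v : C3) : en v ≤ 3 * ‖v‖ ^ 2 := by
  unfold en
  have : ∀ j ∈ (Finset.univ : Finset (Fin 3)), ‖v j‖ ^ 2 ≤ ‖v‖ ^ 2 := fun j _ =>
    pow_le_pow_left₀ (norm_nonneg _) (norm_le_pi_norm v j) 2
  refine (Finset.sum_le_sum this).trans ?_
  rw [Finset.sum_const, Finset.card_univ, Fintype.card_fin, nsmul_eq_mul]
  push_cast
  linarith

lemma ipc_self (v : C3) : ipc v v = (en v : ℂ) := by
  unfold ipc en
  push_cast
  exact Finset.sum_congr rfl fun m _ => by rw [Complex.mul_conj']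

lemma ipc_bt {k : K} {v v' w : C3} (hw : dt k w = 0) :
    ipc (bt k v v') w = -(2 * Real.pi * Complex.I) * (dt k v * ipc v' w) := by
  have h0 : ∑ i, (k i : ℂ) * conj (w i) = 0 := by
    have := congrArg conj hw
    unfold dt at this
    rw [map_sum, map_zero] at this
    rw [← this]
    refine Finset.sum_congr rfl fun i _ => ?_
    rw [map_mul]
    simp
  unfold ipc
  simp only [bt_eq]
  calc ∑ m, -(2 * (Real.pi : ℂ) * Complex.I) * dt k v * (v' m - (k m : ℂ) * dt k v' / ((sq k : ℝ) : ℂ)) * conj (w m)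
      = -(2 * (Real.pi : ℂ) * Complex.I) * dt k v * (∑ m, v' m * conj (w m)
        - dt k v' / ((sq k : ℝ) : ℂ) * ∑ m, (k m : ℂ) * conj (w m)) := by
        rw [Finset.mul_sum, ← Finset.sum_sub_distrib, Finset.mul_sum]
        exact Finset.sum_congr rfl fun m _ => by ring
    _ = _ := by rw [h0]; ring

lemma Bf_eq_sum {B : Finset K} {u : K → C3} (hs : ∀ k, k ∉ B → u k = 0) (k : K) :
    Bf u u k = ∑ l ∈ B, bt k (u l) (u (k - l)) := by
  funext i
  rw [Finset.sum_apply]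
  unfold Bf bt
  have h1 : ∀ j m, cv u u k j m = ∑ l ∈ B, u l j * u (k - l) m := by
    intro j m
    unfold cv
    rw [tsum_eq_sum (s := B)]
    intro l hl
    rw [hs l hl]; simp
  simp only [h1, Finset.mul_sum]
  have h2 : ∀ j, ∑ m, ∑ l ∈ B, coef k i j m * (u l j * u (k - l) m)
      = ∑ l ∈ B, ∑ m, coef k i j m * (u l j * u (k - l) m) := fun j => Finset.sum_comm
  simp only [h2]
  exact Finset.sum_comm

lemma ipc_Bf {B : Finset K} {u : K → C3} (hs : ∀ k, k ∉ B → u k = 0) {k : K}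
    (hd : dt k (u k) = 0) :
    ipc (Bf u u k) (u k) = -(2 * Real.pi * Complex.I) *
      ∑ l ∈ B, dt k (u l) * ipc (u (k - l)) (u k) := by
  rw [Bf_eq_sum hs]
  have h1 : ipc (∑ l ∈ B, bt k (u l) (u (k - l))) (u k)
      = ∑ l ∈ B, ipc (bt k (u l) (u (k - l))) (u k) := by
    unfold ipc
    simp only [Finset.sum_apply, Finset.sum_mul]
    exact Finset.sum_comm
  rw [h1, Finset.mul_sum]
  exact Finset.sum_congr rfl fun l _ => ipc_bt hd

/-! ### convolution inequalities -/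

section conv

variable (B : Finset K) (hB : ∀ k ∈ B, -k ∈ B)

/-- the triads in `B` -/
def tri : Finset (K × K) := (B ×ˢ B).filter fun p => p.1 - p.2 ∈ B

lemma mem_tri {p : K × K} : p ∈ tri B ↔ p.1 ∈ B ∧ p.2 ∈ B ∧ p.1 - p.2 ∈ B := by
  unfold tri
  rw [Finset.mem_filter, Finset.mem_product]
  tauto

lemma sum_shift_le {f : K → ℝ} (hf : ∀ k, 0 ≤ f k) (e : K → K) (he : Function.Injective e) :
    ∑ l ∈ B.filter (fun l => e l ∈ B), f (e l) ≤ ∑ l ∈ B, f l := by
  classical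
  rw [← Finset.sum_image (f := f) (g := e) (fun x _ y _ h => he h)]
  apply Finset.sum_le_sum_of_subset_of_nonneg
  · intro x hx
    obtain ⟨l, hl, rfl⟩ := Finset.mem_image.1 hx
    exact (Finset.mem_filter.1 hl).2
  · intro x _ _; exact hf x

lemma inner_le {g : K → ℝ} (e : K → K) (he : Function.Injective e) :
    ∑ l ∈ B.filter (fun l => e l ∈ B), g (e l) * g l ≤ ∑ l ∈ B, g l ^ 2 := by
  have h1 : ∑ l ∈ B.filter (fun l => e l ∈ B), g (e l) * g l
      ≤ ∑ l ∈ B.filter (fun l => e l ∈ B), (g (e l) ^ 2 / 2 + g l ^ 2 / 2) :=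
    Finset.sum_le_sum fun l _ => by nlinarith [sq_nonneg (g (e l) - g l)]
  have h2 := sum_shift_le B (f := fun l => g l ^ 2 / 2) (fun k => by positivity) e he
  have h3 : ∑ l ∈ B.filter (fun l => e l ∈ B), g l ^ 2 / 2 ≤ ∑ l ∈ B, g l ^ 2 / 2 :=
    Finset.sum_le_sum_of_subset_of_nonneg (Finset.filter_subset _ _) fun _ _ _ => by positivity
  rw [Finset.sum_add_distrib] at h1
  have h4 : ∑ l ∈ B, g l ^ 2 = ∑ l ∈ B, g l ^ 2 / 2 + ∑ l ∈ B, g l ^ 2 / 2 := by
    rw [← Finset.sum_add_distrib]; exact Finset.sum_congr rfl fun _ _ => by ring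
  rw [h4]
  linarith

lemma sum_tri_eq (F : K → K → ℝ) :
    ∑ p ∈ tri B, F p.1 p.2 = ∑ k ∈ B, ∑ l ∈ B.filter (fun l => k - l ∈ B), F k l := by
  unfold tri
  rw [Finset.sum_filter, Finset.sum_product]
  refine Finset.sum_congr rfl fun k _ => ?_
  rw [Finset.sum_filter]

lemma sum_tri_eq' (F : K → K → ℝ) :
    ∑ p ∈ tri B, F p.1 p.2 = ∑ l ∈ B, ∑ k ∈ B.filter (fun k => k - l ∈ B), F k l := by
  unfold tri
  rw [Finset.sum_filter, Finset.sum_product_right]
  refine Finset.sum_congr rfl fun k _ => ?_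
  rw [Finset.sum_filter]

lemma conv1 {f g : K → ℝ} (hf : ∀ k, 0 ≤ f k) :
    ∑ p ∈ tri B, f p.2 * (g p.1 * g (p.1 - p.2)) ≤ (∑ l ∈ B, f l) * ∑ l ∈ B, g l ^ 2 := by
  rw [sum_tri_eq' B (fun k l => f l * (g k * g (k - l))), Finset.sum_mul]
  refine Finset.sum_le_sum fun l _ => ?_
  rw [← Finset.mul_sum]
  apply mul_le_mul_of_nonneg_left _ (hf l)
  have := inner_le B (g := g) (fun k => k - l) (fun a b h => sub_left_injective h)
  refine le_trans (le_of_eq ?_) this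
  exact Finset.sum_congr rfl fun _ _ => by ring

lemma conv3 {f g : K → ℝ} (hf : ∀ k, 0 ≤ f k) :
    ∑ p ∈ tri B, f p.1 * (g (p.1 - p.2) * g p.2) ≤ (∑ l ∈ B, f l) * ∑ l ∈ B, g l ^ 2 := by
  rw [sum_tri_eq B (fun k l => f k * (g (k - l) * g l)), Finset.sum_mul]
  refine Finset.sum_le_sum fun k _ => ?_
  rw [← Finset.mul_sum]
  apply mul_le_mul_of_nonneg_left _ (hf k)
  exact inner_le B (g := g) (fun l => k - l) (fun a b h => sub_right_injective h)

lemma conv2 {f g : K → ℝ} (hf : ∀ k, 0 ≤ f k) :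
    ∑ p ∈ tri B, f (p.1 - p.2) * (g p.1 * g p.2) ≤ (∑ l ∈ B, f l) * ∑ l ∈ B, g l ^ 2 := by
  refine le_trans (le_of_eq ?_) (conv1 B hf (g := g))
  refine Finset.sum_nbij' (fun p => (p.1, p.1 - p.2)) (fun p => (p.1, p.1 - p.2)) ?_ ?_ ?_ ?_ ?_
  · intro p hp; rw [mem_tri] at *; simpa using ⟨hp.1, hp.2.2, hp.2.1⟩
  · intro p hp; rw [mem_tri] at *; simpa using ⟨hp.1, hp.2.2, hp.2.1⟩
  · intro p _; simp
  · intro p _; simp
  · intro p _; simp

end conv

/-- **The flux.** -/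
theorem flux {B : Finset K} (hB : ∀ k ∈ B, -k ∈ B) {u : K → C3} (hs : ∀ k, k ∉ B → u k = 0)
    (hsym : Sym u) (hdiv : ∀ k, dt k (u k) = 0) {w φ ψ : K → ℝ} (hw : ∀ k, w (-k) = w k)
    (hφ : ∀ k, 0 ≤ φ k)
    (htri : ∀ k l, |w k - w (k - l)| * min (nn k) (nn (k - l)) ≤
      φ l * (ψ k * ψ (k - l)) + φ (k - l) * (ψ k * ψ l) + φ k * (ψ (k - l) * ψ l)) :
    |∑ k ∈ B, w k * (2 * (ipc (Bf u u k) (u k)).re)|
      ≤ 54 * Real.pi * (∑ k ∈ B, φ k * ‖u k‖) * ∑ k ∈ B, (ψ k * ‖u k‖) ^ 2 := by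
  set T : K → K → ℂ := fun k l => dt k (u l) * ipc (u (k - l)) (u k) with hT
  have hT0 : ∀ k l, k - l ∉ B → T k l = 0 := by
    intro k l h
    simp only [hT, hs _ h, ipc]
    simp
  have hTsym : ∀ k l, T (l - k) l = -T k l := by
    intro k l
    have h1 : dt (l - k) (u l) = -dt k (u l) := by rw [dt_sub, hdiv l, zero_sub]
    have h2 : ipc (u (l - k - l)) (u (l - k)) = ipc (u (k - l)) (u k) := by
      unfold ipc
      refine Finset.sum_congr rfl fun m _ => ?_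
      have e1 : l - k - l = -k := by abel
      have e2 : l - k = -(k - l) := by abel
      rw [e1, e2, hsym k m, hsym (k - l) m]
      simp only [Complex.star_def, Complex.conj_conj]
      ring
    simp only [hT, h1, h2]
    ring
  have hTn : ∀ k l, ‖T k l‖ ≤ 9 * (min (nn k) (nn (k - l)) * (‖u l‖ * (‖u k‖ * ‖u (k - l)‖))) := by
    intro k l
    have h1 : ‖dt k (u l)‖ ≤ 3 * min (nn k) (nn (k - l)) * ‖u l‖ := by
      rcases min_choice (nn k) (nn (k - l)) with h | h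
      · rw [h]; exact norm_dt_le k (u l)
      · rw [h]
        have : dt k (u l) = dt (k - l) (u l) := by rw [dt_sub, hdiv l, sub_zero]
        rw [this]; exact norm_dt_le _ _
    have h2 := norm_ipc_le (u (k - l)) (u k)
    have h0 : 0 ≤ min (nn k) (nn (k - l)) := le_min (nn_nonneg _) (nn_nonneg _)
    simp only [hT]
    rw [norm_mul]
    calc _ ≤ (3 * min (nn k) (nn (k - l)) * ‖u l‖) * (3 * (‖u (k - l)‖ * ‖u k‖)) :=
          mul_le_mul h1 h2 (norm_nonneg _) (by positivity)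
      _ = _ := by ring
  set S : ℂ := ∑ p ∈ tri B, (w p.1 : ℂ) * T p.1 p.2 with hS
  have hmain : ∑ k ∈ B, w k * (2 * (ipc (Bf u u k) (u k)).re)
      = (-(4 * Real.pi * Complex.I) * S).re := by
    have h1 : S = ∑ k ∈ B, (w k : ℂ) * ∑ l ∈ B, T k l := by
      rw [hS]
      unfold tri
      rw [Finset.sum_filter, Finset.sum_product]
      refine Finset.sum_congr rfl fun k _ => ?_
      rw [Finset.mul_sum]
      refine Finset.sum_congr rfl fun l _ => ?_
      split_ifs with h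
      · rfl
      · rw [hT0 k l h, mul_zero]
    rw [h1, Finset.mul_sum, Complex.re_sum]
    refine Finset.sum_congr rfl fun k _ => ?_
    rw [ipc_Bf hs (hdiv k)]
    have h2 : -(4 * Real.pi * Complex.I) * ((w k : ℂ) * ∑ l ∈ B, T k l)
        = ((2 * w k : ℝ) : ℂ) * (-(2 * Real.pi * Complex.I) * ∑ l ∈ B, T k l) := by
      push_cast; ring
    rw [h2, Complex.re_ofReal_mul]
    simp only [hT]
    ring
  have h2S : 2 * S = ∑ p ∈ tri B, ((w p.1 - w (p.1 - p.2) : ℝ) : ℂ) * T p.1 p.2 := by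
    have h3 : S = -∑ p ∈ tri B, (w (p.1 - p.2) : ℂ) * T p.1 p.2 := by
      rw [hS, ← Finset.sum_neg_distrib]
      refine Finset.sum_nbij' (fun p => (p.2 - p.1, p.2)) (fun p => (p.2 - p.1, p.2)) ?_ ?_ ?_ ?_ ?_
      · intro p hp
        rw [mem_tri] at *
        refine ⟨?_, hp.2.1, ?_⟩
        · have := hB _ hp.2.2; rwa [neg_sub] at this
        · have := hB _ hp.1
          show p.2 - p.1 - p.2 ∈ B
          rwa [show p.2 - p.1 - p.2 = -p.1 by abel]
      · intro p hp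
        rw [mem_tri] at *
        refine ⟨?_, hp.2.1, ?_⟩
        · have := hB _ hp.2.2; rwa [neg_sub] at this
        · have := hB _ hp.1
          show p.2 - p.1 - p.2 ∈ B
          rwa [show p.2 - p.1 - p.2 = -p.1 by abel]
      · intro p _; simp
      · intro p _; simp
      · intro p _
        show (w p.1 : ℂ) * T p.1 p.2 = -((w (p.2 - p.1 - p.2) : ℂ) * T (p.2 - p.1) p.2)
        rw [hTsym, show p.2 - p.1 - p.2 = -p.1 by abel, hw]
        ring
    have h4 : 2 * S = S + S := by ring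
    rw [h4]
    nth_rewrite 2 [h3]
    rw [hS, ← sub_eq_add_neg, ← Finset.sum_sub_distrib]
    refine Finset.sum_congr rfl fun p _ => ?_
    push_cast
    ring
  have hbound : ‖2 * S‖ ≤ 27 * ((∑ k ∈ B, φ k * ‖u k‖) * ∑ k ∈ B, (ψ k * ‖u k‖) ^ 2) := by
    rw [h2S]
    refine (norm_sum_le _ _).trans ?_
    set f : K → ℝ := fun k => φ k * ‖u k‖
    set g : K → ℝ := fun k => ψ k * ‖u k‖
    have hf : ∀ k, 0 ≤ f k := fun k => mul_nonneg (hφ k) (norm_nonneg _)
    have h5 : ∀ p ∈ tri B, ‖((w p.1 - w (p.1 - p.2) : ℝ) : ℂ) * T p.1 p.2‖ ≤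
        9 * (f p.2 * (g p.1 * g (p.1 - p.2)) + f (p.1 - p.2) * (g p.1 * g p.2)
          + f p.1 * (g (p.1 - p.2) * g p.2)) := by
      intro p _
      rw [norm_mul, Complex.norm_real, Real.norm_eq_abs]
      calc _ ≤ |w p.1 - w (p.1 - p.2)| * (9 * (min (nn p.1) (nn (p.1 - p.2)) *
            (‖u p.2‖ * (‖u p.1‖ * ‖u (p.1 - p.2)‖)))) :=
            mul_le_mul_of_nonneg_left (hTn _ _) (abs_nonneg _)
        _ = 9 * ((|w p.1 - w (p.1 - p.2)| * min (nn p.1) (nn (p.1 - p.2))) *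
            (‖u p.2‖ * (‖u p.1‖ * ‖u (p.1 - p.2)‖))) := by ring
        _ ≤ 9 * ((φ p.2 * (ψ p.1 * ψ (p.1 - p.2)) + φ (p.1 - p.2) * (ψ p.1 * ψ p.2)
              + φ p.1 * (ψ (p.1 - p.2) * ψ p.2)) * (‖u p.2‖ * (‖u p.1‖ * ‖u (p.1 - p.2)‖))) := by
            apply mul_le_mul_of_nonneg_left _ (by norm_num)
            exact mul_le_mul_of_nonneg_right (htri _ _) (by positivity)
        _ = _ := by simp only [f, g]; ring
    refine (Finset.sum_le_sum h5).trans ?_
    rw [← Finset.mul_sum, Finset.sum_add_distrib, Finset.sum_add_distrib]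
    have c1 := conv1 B hf (g := g)
    have c2 := conv2 B hf (g := g)
    have c3 := conv3 B hf (g := g)
    linarith
  rw [hmain]
  refine (Complex.abs_re_le_norm _).trans ?_
  have h6 : -(4 * (Real.pi : ℂ) * Complex.I) * S = (-(2 * Real.pi * Complex.I)) * (2 * S) := by ring
  rw [h6, norm_mul]
  have h7 : ‖-(2 * (Real.pi : ℂ) * Complex.I)‖ = 2 * Real.pi := by
    rw [norm_neg, norm_mul, norm_mul, Complex.norm_I, Complex.norm_real]
    simp [abs_of_pos Real.pi_pos]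
  rw [h7]
  have := mul_le_mul_of_nonneg_left hbound (by positivity : 0 ≤ 2 * Real.pi)
  linarith

end Pool.Agent.K1H29.SH
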