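import Mathlib

/-!
# Weights and triads
-/

open Set

namespace Pool.Agent.K1H29.SH

/-- the cutoff: `0` for `2 a ≤ N`, `1` for `N ≤ a` -/
noncomputable def W (N a : ℝ) : ℝ := min 1 (max 0 (2 * a / N - 1))

noncomputable def Ph (N c : ℝ) : ℝ := if c < 2 * N then 2 * c else 0

noncomputable def Ps (N a : ℝ) : ℝ := if N ≤ 4 * a then 1 else 0

lemma W_nonneg (N a : ℝ) : 0 ≤ W N a := le_min zero_le_one (le_max_left _ _)

lemma W_le_one (N a : ℝ) : W N a ≤ 1 := min_le_left _ _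

lemma W_eq_one {N a : ℝ} (hN : 0 < N) (h : N ≤ a) : W N a = 1 := by
  unfold W
  rw [min_eq_left]
  apply le_max_of_le_right
  have : 2 ≤ 2 * a / N := by rw [le_div_iff₀ hN]; linarith
  linarith

lemma W_eq_zero {N a : ℝ} (hN : 0 < N) (h : 2 * a ≤ N) : W N a = 0 := by
  unfold W
  have : 2 * a / N ≤ 1 := by rw [div_le_one hN]; exact h
  rw [max_eq_left (by linarith), min_eq_right zero_le_one]

lemma W_mono {N : ℝ} (hN : 0 < N) {a b : ℝ} (h : b ≤ a) : W N b ≤ W N a := by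
  unfold W
  have : 2 * b / N ≤ 2 * a / N := div_le_div_of_nonneg_right (by linarith) hN.le
  exact min_le_min le_rfl (max_le_max le_rfl (by linarith))

lemma W_anti {N M : ℝ} (hN : 0 < N) (hNM : 2 * N ≤ M) (a : ℝ) : W M a ≤ W N a := by
  rcases le_or_gt N a with h | h
  · rw [W_eq_one hN h]; exact W_le_one _ _
  · rw [W_eq_zero (by linarith : 0 < M) (by linarith)]; exact W_nonneg _ _

lemma W_sub_le {N : ℝ} (hN : 0 < N) {a b : ℝ} (h : b ≤ a) : W N a - W N b ≤ 2 * (a - b) / N := by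
  have h1 : |W N a - W N b| ≤ |(2 * a / N - 1) - (2 * b / N - 1)| := by
    unfold W
    refine (abs_min_sub_min_le_max _ _ _ _).trans ?_
    rw [sub_self, abs_zero]
    refine max_le (abs_nonneg _) ((abs_max_sub_max_le_max _ _ _ _).trans ?_)
    rw [sub_self, abs_zero]
    exact max_le (abs_nonneg _) le_rfl
  have h2 : (2 * a / N - 1) - (2 * b / N - 1) = 2 * (a - b) / N := by ring
  rw [h2, abs_of_nonneg (by apply div_nonneg (by linarith) hN.le : 0 ≤ 2 * (a - b) / N)] at h1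
  exact (le_abs_self _).trans h1

lemma Ph_nonneg {N c : ℝ} (hc : 0 ≤ c) : 0 ≤ Ph N c := by
  unfold Ph; split_ifs <;> linarith

lemma Ps_nonneg (N a : ℝ) : 0 ≤ Ps N a := by unfold Ps; split_ifs <;> norm_num

private lemma triW_aux {N a b c : ℝ} (hN : 0 < N) (hb : 0 ≤ b) (hba : b ≤ a)
    (h1 : a ≤ b + c) :
    (W N a - W N b) * b ≤
      Ph N c * (Ps N a * Ps N b) + Ph N b * (Ps N a * Ps N c) + Ph N a * (Ps N b * Ps N c) := by
  have ha : 0 ≤ a := hb.trans hba
  have hc : 0 ≤ c := by linarith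
  have n1 : 0 ≤ Ph N c * (Ps N a * Ps N b) :=
    mul_nonneg (Ph_nonneg hc) (mul_nonneg (Ps_nonneg _ _) (Ps_nonneg _ _))
  have n2 : 0 ≤ Ph N b * (Ps N a * Ps N c) :=
    mul_nonneg (Ph_nonneg hb) (mul_nonneg (Ps_nonneg _ _) (Ps_nonneg _ _))
  have n3 : 0 ≤ Ph N a * (Ps N b * Ps N c) :=
    mul_nonneg (Ph_nonneg ha) (mul_nonneg (Ps_nonneg _ _) (Ps_nonneg _ _))
  rcases le_or_gt N b with hNb | hNb
  · rw [W_eq_one hN hNb, W_eq_one hN (hNb.trans hba)]
    linarith
  rcases le_or_gt (2 * a) N with haN | haN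
  · rw [W_eq_zero hN haN, W_eq_zero hN (by linarith : 2 * b ≤ N)]
    linarith
  have hPa : Ps N a = 1 := by unfold Ps; rw [if_pos (by linarith)]
  have hPhb : Ph N b = 2 * b := by unfold Ph; rw [if_pos (by linarith)]
  have hle1 : (W N a - W N b) * b ≤ 1 * b := by
    apply mul_le_mul_of_nonneg_right _ hb
    linarith [W_le_one N a, W_nonneg N b]
  rcases le_or_gt N (4 * b) with h4 | h4
  · have hPb : Ps N b = 1 := by unfold Ps; rw [if_pos h4]
    rcases lt_or_ge c (2 * N) with hc2 | hc2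
    · have hPhc : Ph N c = 2 * c := by unfold Ph; rw [if_pos hc2]
      have e1 : (W N a - W N b) * b ≤ (2 * (a - b) / N) * N := by
        apply mul_le_mul (W_sub_le hN hba) hNb.le hb
        apply div_nonneg (by linarith) hN.le
      rw [div_mul_cancel₀ _ hN.ne'] at e1
      rw [hPhc, hPa, hPb] at n1 ⊢
      rw [hPa] at n2
      rw [hPb] at n3
      linarith
    · have hPc : Ps N c = 1 := by unfold Ps; rw [if_pos (by linarith)]
      rw [hPhb, hPa, hPc] at n2 ⊢
      rw [hPa] at n1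
      rw [hPc] at n3
      linarith
  · have hPc : Ps N c = 1 := by unfold Ps; rw [if_pos (by linarith)]
    rw [hPhb, hPa, hPc] at n2 ⊢
    rw [hPa] at n1
    rw [hPc] at n3
    linarith

lemma triW {N a b c : ℝ} (hN : 0 < N) (ha : 0 ≤ a) (hb : 0 ≤ b)
    (h1 : a ≤ b + c) (h2 : b ≤ a + c) :
    |W N a - W N b| * min a b ≤
      Ph N c * (Ps N a * Ps N b) + Ph N b * (Ps N a * Ps N c) + Ph N a * (Ps N b * Ps N c) := by
  rcases le_total b a with h | h
  · rw [abs_of_nonneg (by linarith [W_mono hN h] : 0 ≤ W N a - W N b), min_eq_right h]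
    exact triW_aux hN hb h h1
  · rw [abs_sub_comm, abs_of_nonneg (by linarith [W_mono hN h] : 0 ≤ W N b - W N a),
      min_eq_left h]
    have := triW_aux hN ha h h2
    calc _ ≤ _ := this
      _ = _ := by ring

/-! ### The polynomial weights -/

/-- `max 1 ((a / N) ^ σ)` -/
noncomputable def th (σ : ℕ) (N a : ℝ) : ℝ := (max 1 (a / N)) ^ σ

/-- `max 0 ((a / N) ^ (2 σ) - 1)` -/
noncomputable def rh (σ : ℕ) (N a : ℝ) : ℝ := th σ N a ^ 2 - 1

noncomputable def Pt (σ : ℕ) (N a : ℝ) : ℝ := if N ≤ 2 * a then th σ N a else 0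

lemma one_le_th (σ : ℕ) (N a : ℝ) : 1 ≤ th σ N a := one_le_pow₀ (le_max_left _ _)

lemma rh_nonneg (σ : ℕ) (N a : ℝ) : 0 ≤ rh σ N a := by
  unfold rh
  nlinarith [one_le_th σ N a]

lemma rh_eq_zero {σ : ℕ} {N a : ℝ} (hN : 0 < N) (h : a ≤ N) : rh σ N a = 0 := by
  unfold rh th
  rw [max_eq_left ((div_le_one hN).2 h)]
  simp

lemma th_mono {σ : ℕ} {N a b : ℝ} (hN : 0 < N) (h : b ≤ a) : th σ N b ≤ th σ N a := by
  unfold th
  apply pow_le_pow_left₀ (le_trans zero_le_one (le_max_left _ _))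
  exact max_le_max le_rfl (div_le_div_of_nonneg_right h hN.le)

lemma Pt_nonneg (σ : ℕ) (N a : ℝ) : 0 ≤ Pt σ N a := by
  unfold Pt
  split_ifs
  · linarith [one_le_th σ N a]
  · exact le_rfl

lemma th_two {σ : ℕ} {N a b : ℝ} (hN : 0 < N) (h : a ≤ 2 * b) :
    th σ N a ≤ 2 ^ σ * th σ N b := by
  unfold th
  rw [← mul_pow]
  apply pow_le_pow_left₀ (le_trans zero_le_one (le_max_left _ _))
  apply max_le
  · have := le_max_left 1 (b / N); linarith
  · have h1 := le_max_right 1 (b / N)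
    have h2 : a / N ≤ 2 * (b / N) := by
      rw [← mul_div_assoc]
      exact div_le_div_of_nonneg_right h hN.le
    linarith

lemma pow_sub_pow_le {σ : ℕ} {x y : ℝ} (hy : 0 ≤ y) (hxy : y ≤ x) :
    x * (x ^ σ - y ^ σ) ≤ σ * x ^ σ * (x - y) := by
  have hx : 0 ≤ x := hy.trans hxy
  induction σ with
  | zero => simp
  | succ n ih =>
    have h1 : y ^ n ≤ x ^ n := pow_le_pow_left₀ hy hxy n
    have h2 : 0 ≤ x - y := by linarith
    have h3 : x * (x ^ (n + 1) - y ^ (n + 1)) = x * (x * (x ^ n - y ^ n)) + x * (y ^ n * (x - y)) := by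
      ring
    have h4 : x * (x * (x ^ n - y ^ n)) ≤ x * (n * x ^ n * (x - y)) := mul_le_mul_of_nonneg_left ih hx
    have h5 : x * (y ^ n * (x - y)) ≤ x * (x ^ n * (x - y)) :=
      mul_le_mul_of_nonneg_left (mul_le_mul_of_nonneg_right h1 h2) hx
    rw [h3]
    push_cast
    calc _ ≤ x * (n * x ^ n * (x - y)) + x * (x ^ n * (x - y)) := add_le_add h4 h5
      _ = _ := by ring

private lemma trirh_aux {σ : ℕ} {N a b c : ℝ} (hN : 0 < N) (hb : 0 ≤ b) (hba : b ≤ a)
    (h1 : a ≤ b + c) :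
    (rh σ N a - rh σ N b) * b ≤ (2 * (σ + 1) * 2 ^ σ) * (
      c * (Pt σ N a * Pt σ N b) + b * (Pt σ N a * Pt σ N c) + a * (Pt σ N b * Pt σ N c)) := by
  have ha : 0 ≤ a := hb.trans hba
  have hc : 0 ≤ c := by linarith
  have n1 : 0 ≤ c * (Pt σ N a * Pt σ N b) :=
    mul_nonneg hc (mul_nonneg (Pt_nonneg _ _ _) (Pt_nonneg _ _ _))
  have n2 : 0 ≤ b * (Pt σ N a * Pt σ N c) :=
    mul_nonneg hb (mul_nonneg (Pt_nonneg _ _ _) (Pt_nonneg _ _ _))
  have n3 : 0 ≤ a * (Pt σ N b * Pt σ N c) :=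
    mul_nonneg ha (mul_nonneg (Pt_nonneg _ _ _) (Pt_nonneg _ _ _))
  have hK : (1 : ℝ) ≤ 2 ^ σ := one_le_pow₀ (by norm_num)
  have hσ : (0 : ℝ) ≤ σ := Nat.cast_nonneg σ
  set X := Pt σ N a
  rcases le_or_gt a N with haN | haN
  · rw [rh_eq_zero hN haN, rh_eq_zero hN (hba.trans haN), sub_zero, zero_mul]
    positivity
  have hPa : X = th σ N a := by simp only [X]; unfold Pt; rw [if_pos (by linarith)]
  have hta := one_le_th σ N a
  have htb := one_le_th σ N b
  have htba := th_mono (σ := σ) hN hba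
  rcases le_or_gt a (2 * b) with hab | hab
  · have hPb : Pt σ N b = th σ N b := by unfold Pt; rw [if_pos (by linarith)]
    have e1 : rh σ N a - rh σ N b = (th σ N a - th σ N b) * (th σ N a + th σ N b) := by
      unfold rh; ring
    have e2 : (th σ N a - th σ N b) * b ≤ σ * c * th σ N a := by
      have f1 : max 1 (a / N) = a / N := max_eq_right ((one_le_div hN).2 haN.le)
      have f2 : max 1 (b / N) ≤ a / N := by
        rw [← f1]; exact max_le_max le_rfl (div_le_div_of_nonneg_right hba hN.le)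
      have f3 := pow_sub_pow_le (σ := σ) (x := a / N) (y := max 1 (b / N))
        (le_trans zero_le_one (le_max_left _ _)) f2
      have f4 : a / N - max 1 (b / N) ≤ c / N := by
        have := le_max_right 1 (b / N)
        have : a / N ≤ b / N + c / N := by rw [← add_div]; exact div_le_div_of_nonneg_right h1 hN.le
        linarith
      have f5 : th σ N a = (a / N) ^ σ := by unfold th; rw [f1]
      have f6 : th σ N b = (max 1 (b / N)) ^ σ := rfl
      have f7 : 0 ≤ (a / N) ^ σ - (max 1 (b / N)) ^ σ := by rw [← f5, ← f6]; linarith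
      rw [f5, f6]
      calc ((a / N) ^ σ - (max 1 (b / N)) ^ σ) * b
          ≤ ((a / N) ^ σ - (max 1 (b / N)) ^ σ) * a := mul_le_mul_of_nonneg_left hba f7
        _ = N * (a / N * ((a / N) ^ σ - (max 1 (b / N)) ^ σ)) := by field_simp
        _ ≤ N * (σ * (a / N) ^ σ * (a / N - max 1 (b / N))) := mul_le_mul_of_nonneg_left f3 hN.le
        _ ≤ N * (σ * (a / N) ^ σ * (c / N)) := by
            apply mul_le_mul_of_nonneg_left _ hN.le
            exact mul_le_mul_of_nonneg_left f4 (by positivity)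
        _ = _ := by field_simp
    have e3 : th σ N a ≤ 2 ^ σ * th σ N b := th_two hN hab
    have e4 : (rh σ N a - rh σ N b) * b ≤ (σ * c * th σ N a) * (2 * (2 ^ σ * th σ N b)) := by
      rw [e1]
      calc (th σ N a - th σ N b) * (th σ N a + th σ N b) * b
          = ((th σ N a - th σ N b) * b) * (th σ N a + th σ N b) := by ring
        _ ≤ (σ * c * th σ N a) * (2 * (2 ^ σ * th σ N b)) := by
            apply mul_le_mul e2 _ (by linarith) (by positivity)
            nlinarith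
    have e5 : (σ * c * th σ N a) * (2 * (2 ^ σ * th σ N b))
        ≤ (2 * (σ + 1) * 2 ^ σ) * (c * (X * Pt σ N b)) := by
      rw [hPa, hPb]
      have : 0 ≤ 2 * 2 ^ σ * (c * (th σ N a * th σ N b)) := by positivity
      nlinarith
    have e6 : 0 ≤ (2 * (σ + 1) * 2 ^ σ : ℝ) := by positivity
    nlinarith [mul_nonneg e6 n2, mul_nonneg e6 n3]
  · have hca : a ≤ 2 * c := by linarith
    have hPc : Pt σ N c = th σ N c := by unfold Pt; rw [if_pos (by linarith)]
    have e3 : th σ N a ≤ 2 ^ σ * th σ N c := th_two hN hca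
    have e4 : (rh σ N a - rh σ N b) * b ≤ th σ N a * (2 ^ σ * th σ N c) * b := by
      apply mul_le_mul_of_nonneg_right _ hb
      have := rh_nonneg σ N b
      have : rh σ N a ≤ th σ N a ^ 2 := by unfold rh; linarith
      nlinarith
    have e5 : th σ N a * (2 ^ σ * th σ N c) * b ≤ (2 * (σ + 1) * 2 ^ σ) * (b * (X * Pt σ N c)) := by
      rw [hPa, hPc]
      have htc := one_le_th σ N c
      have : 0 ≤ (2 * σ + 1) * 2 ^ σ * (b * (th σ N a * th σ N c)) := by positivity
      nlinarith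
    have e6 : 0 ≤ (2 * (σ + 1) * 2 ^ σ : ℝ) := by positivity
    nlinarith [mul_nonneg e6 n1, mul_nonneg e6 n3]

lemma trirh {σ : ℕ} {N a b c : ℝ} (hN : 0 < N) (ha : 0 ≤ a) (hb : 0 ≤ b)
    (h1 : a ≤ b + c) (h2 : b ≤ a + c) :
    |rh σ N a - rh σ N b| * min a b ≤ (2 * (σ + 1) * 2 ^ σ) * (
      c * (Pt σ N a * Pt σ N b) + b * (Pt σ N a * Pt σ N c) + a * (Pt σ N b * Pt σ N c)) := by
  have hmono : ∀ {x y : ℝ}, x ≤ y → rh σ N x ≤ rh σ N y := by
    intro x y hxy
    unfold rh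
    have := th_mono (σ := σ) hN hxy
    have := one_le_th σ N x
    nlinarith
  rcases le_total b a with h | h
  · rw [abs_of_nonneg (by linarith [hmono h] : 0 ≤ rh σ N a - rh σ N b), min_eq_right h]
    exact trirh_aux hN hb h h1
  · rw [abs_sub_comm, abs_of_nonneg (by linarith [hmono h] : 0 ≤ rh σ N b - rh σ N a),
      min_eq_left h]
    have := trirh_aux (σ := σ) hN ha h h2
    calc _ ≤ _ := this
      _ = _ := by ring

end Pool.Agent.K1H29.SH
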