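import Pool.Agent.K1H29.SH.Flux
import Pool.Agent.K1H29.SH.Wt

/-!
# Dyadic sums
-/

open Set

namespace Pool.Agent.K1H29.SH

open Pool.Agent.H356R3.NS

/-- dyadic shells -/
noncomputable def sh (B : Finset K) (j : ℕ) : Finset K :=
  B.filter fun k => 2 ^ j ≤ nn k ∧ nn k < 2 ^ (j + 1)

lemma card_sh (B : Finset K) (j : ℕ) : ((sh B j).card : ℝ) ≤ 125 * 8 ^ j := by
  have h1 : sh B j ⊆ Finset.Icc (fun _ => -(2 ^ (j + 1) : ℤ)) (fun _ => (2 ^ (j + 1) : ℤ)) := by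
    intro k hk
    unfold sh at hk
    rw [Finset.mem_filter] at hk
    have h2 : nn k ≤ ((2 ^ (j + 1) : ℕ) : ℝ) := by push_cast; exact hk.2.2.le
    rw [nn_le_iff] at h2
    rw [Finset.mem_Icc]
    constructor
    · intro i; have := (abs_le.1 (h2 i)).1; push_cast at this; exact this
    · intro i; have := (abs_le.1 (h2 i)).2; push_cast at this; exact this
  have h3 : (Finset.Icc (fun _ : Fin 3 => -(2 ^ (j + 1) : ℤ)) (fun _ => (2 ^ (j + 1) : ℤ))).card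
      = (2 * 2 ^ (j + 1) + 1) ^ 3 := by
    rw [Pi.card_Icc]
    simp only [Int.card_Icc, Finset.prod_const, Finset.card_univ, Fintype.card_fin]
    congr 1
    have : (2 ^ (j + 1) : ℤ) + 1 - -2 ^ (j + 1) = ((2 * 2 ^ (j + 1) + 1 : ℕ) : ℤ) := by
      push_cast; ring
    rw [this, Int.toNat_natCast]
  have h4 : (sh B j).card ≤ (2 * 2 ^ (j + 1) + 1) ^ 3 := by
    rw [← h3]; exact Finset.card_le_card h1
  have h5 : ((sh B j).card : ℝ) ≤ (2 * 2 ^ (j + 1) + 1) ^ 3 := by exact_mod_cast h4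
  refine h5.trans ?_
  have h6 : (1 : ℝ) ≤ 2 ^ j := one_le_pow₀ (by norm_num)
  have h7 : (2 * 2 ^ (j + 1) + 1 : ℝ) ≤ 5 * 2 ^ j := by rw [pow_succ]; linarith
  calc (2 * 2 ^ (j + 1) + 1 : ℝ) ^ 3 ≤ (5 * 2 ^ j) ^ 3 := pow_le_pow_left₀ (by positivity) h7 3
    _ = 125 * 8 ^ j := by
      rw [mul_pow, ← pow_mul, mul_comm j 3, pow_mul]; norm_num

/-- `2^(5/2)` -/
noncomputable def lam : ℝ := √32

lemma lam_sq : lam ^ 2 = 32 := Real.sq_sqrt (by norm_num)

lemma four_le_lam : 4 ≤ lam := by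
  unfold lam
  apply Real.le_sqrt_of_sq_le
  norm_num

lemma lam_pos : 0 < lam := by linarith [four_le_lam]

lemma shell_le {B : Finset K} {u : K → C3} {j : ℕ} {G : ℝ}
    (hG : ∑ k ∈ sh B j, ‖u k‖ ^ 2 ≤ G) :
    ∑ k ∈ sh B j, nn k * ‖u k‖ ≤ 23 * (lam ^ j * √G) := by
  have hG0 : 0 ≤ G := (Finset.sum_nonneg fun k _ => by positivity).trans hG
  have h1 : ∑ k ∈ sh B j, nn k * ‖u k‖ ≤ 2 ^ (j + 1) * ∑ k ∈ sh B j, ‖u k‖ := by
    rw [Finset.mul_sum]
    refine Finset.sum_le_sum fun k hk => ?_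
    unfold sh at hk
    rw [Finset.mem_filter] at hk
    exact mul_le_mul_of_nonneg_right hk.2.2.le (norm_nonneg _)
  refine h1.trans ?_
  have h2 : (∑ k ∈ sh B j, ‖u k‖) ^ 2 ≤ (125 * 8 ^ j) * G := by
    calc _ ≤ ((sh B j).card : ℝ) * ∑ k ∈ sh B j, ‖u k‖ ^ 2 := sq_sum_le_card_mul_sum_sq
      _ ≤ _ := mul_le_mul (card_sh B j) hG (Finset.sum_nonneg fun k _ => by positivity) (by positivity)
  apply le_of_sq_le_sq _ (by have := lam_pos; positivity)
  have e1 : (2 ^ (j + 1) : ℝ) ^ 2 = 4 * 4 ^ j := by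
    rw [← pow_mul, mul_comm (j + 1) 2, pow_mul, pow_succ]; norm_num; ring
  have e2 : (lam ^ j) ^ 2 = 32 ^ j := by rw [← pow_mul, mul_comm, pow_mul, lam_sq]
  have e3 : (4 : ℝ) ^ j * 8 ^ j = 32 ^ j := by rw [← mul_pow]; norm_num
  calc (2 ^ (j + 1) * ∑ k ∈ sh B j, ‖u k‖) ^ 2
      = 4 * 4 ^ j * (∑ k ∈ sh B j, ‖u k‖) ^ 2 := by rw [mul_pow, e1]
    _ ≤ 4 * 4 ^ j * ((125 * 8 ^ j) * G) := mul_le_mul_of_nonneg_left h2 (by positivity)
    _ = 500 * (4 ^ j * 8 ^ j) * G := by ring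
    _ = 500 * 32 ^ j * G := by rw [e3]
    _ ≤ 529 * 32 ^ j * G := by
        apply mul_le_mul_of_nonneg_right _ hG0
        apply mul_le_mul_of_nonneg_right (by norm_num) (by positivity)
    _ = (23 * (lam ^ j * √G)) ^ 2 := by
        rw [mul_pow, mul_pow, e2, Real.sq_sqrt hG0]; ring

lemma dy_sum (B : Finset K) {f : K → ℝ} (hf : ∀ k, 0 ≤ f k) (h0 : f 0 = 0) (J : ℕ) :
    ∑ k ∈ B.filter (fun k => nn k < 2 ^ (J + 1)), f k
      ≤ ∑ j ∈ Finset.range (J + 1), ∑ k ∈ sh B j, f k := by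
  have h1 : ∀ j, ∑ k ∈ sh B j, f k
      = ∑ k ∈ B, if 2 ^ j ≤ nn k ∧ nn k < 2 ^ (j + 1) then f k else 0 := by
    intro j; unfold sh; rw [Finset.sum_filter]
  simp only [h1]
  rw [Finset.sum_comm, Finset.sum_filter]
  refine Finset.sum_le_sum fun k _ => ?_
  have hnn : ∀ j ∈ Finset.range (J + 1),
      0 ≤ (if 2 ^ j ≤ nn k ∧ nn k < 2 ^ (j + 1) then f k else 0) := by
    intro j _; split_ifs
    · exact hf k
    · exact le_rfl
  by_cases hk0 : k = 0
  · subst hk0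
    simp [h0]
  split_ifs with h
  · have h2 := one_le_nn hk0
    set a := H459R3.NS.N k with ha
    have ha0 : a ≠ 0 := by
      have : (1 : ℝ) ≤ (a : ℝ) := h2
      have : 1 ≤ a := by exact_mod_cast this
      omega
    set j := Nat.log 2 a with hj
    have h3 : 2 ^ j ≤ a := Nat.pow_log_le_self 2 ha0
    have h4 : a < 2 ^ (j + 1) := Nat.lt_pow_succ_log_self (by norm_num) a
    have h5 : a < 2 ^ (J + 1) := by
      have : (a : ℝ) < 2 ^ (J + 1) := h
      exact_mod_cast this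
    have h6 : j < J + 1 := by
      by_contra hc
      push Not at hc
      have := Nat.pow_le_pow_right (show 0 < 2 by norm_num) hc
      omega
    have h7 : 2 ^ j ≤ nn k ∧ nn k < 2 ^ (j + 1) := by
      constructor
      · have : ((2 ^ j : ℕ) : ℝ) ≤ (a : ℝ) := by exact_mod_cast h3
        push_cast at this; exact this
      · have : (a : ℝ) < ((2 ^ (j + 1) : ℕ) : ℝ) := by exact_mod_cast h4
        push_cast at this; exact this
    calc f k = (if 2 ^ j ≤ nn k ∧ nn k < 2 ^ (j + 1) then f k else 0) := by rw [if_pos h7]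
      _ ≤ _ := Finset.single_le_sum hnn (Finset.mem_range.2 h6)
  · exact Finset.sum_nonneg hnn

/-- the energy of the scales `≥ n` -/
noncomputable def Fe (B : Finset K) (n : ℕ) (u : K → C3) : ℝ := ∑ k ∈ B, W (2 ^ n) (nn k) * en (u k)

lemma Fe_nonneg (B : Finset K) (n : ℕ) (u : K → C3) : 0 ≤ Fe B n u :=
  Finset.sum_nonneg fun _ _ => mul_nonneg (W_nonneg _ _) (en_nonneg _)

lemma Fe_anti (B : Finset K) (n : ℕ) (u : K → C3) : Fe B (n + 1) u ≤ Fe B n u := by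
  refine Finset.sum_le_sum fun k _ => mul_le_mul_of_nonneg_right ?_ (en_nonneg _)
  exact W_anti (by positivity) (by rw [pow_succ]; linarith) _

lemma Fe_le (B : Finset K) (n : ℕ) (u : K → C3) : Fe B n u ≤ ∑ k ∈ B, en (u k) := by
  refine Finset.sum_le_sum fun k _ => ?_
  exact mul_le_of_le_one_left (en_nonneg _) (W_le_one _ _)

lemma high_le_Fe (B : Finset K) (n : ℕ) (u : K → C3) :
    ∑ k ∈ B.filter (fun k => 2 ^ n ≤ nn k), ‖u k‖ ^ 2 ≤ Fe B n u := by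
  unfold Fe
  rw [Finset.sum_filter]
  refine Finset.sum_le_sum fun k _ => ?_
  split_ifs with h
  · rw [W_eq_one (by positivity) h, one_mul]; exact norm_sq_le_en _
  · exact mul_nonneg (W_nonneg _ _) (en_nonneg _)

lemma sh_le_Fe (B : Finset K) (n : ℕ) (u : K → C3) :
    ∑ k ∈ sh B n, ‖u k‖ ^ 2 ≤ Fe B n u := by
  refine le_trans ?_ (high_le_Fe B n u)
  apply Finset.sum_le_sum_of_subset_of_nonneg
  · intro k hk
    unfold sh at hk
    rw [Finset.mem_filter] at *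
    exact ⟨hk.1, hk.2.1⟩
  · intro k _ _; positivity

lemma low_sum (B : Finset K) (n : ℕ) (u : K → C3) :
    ∑ k ∈ B.filter (fun k => nn k < 2 ^ (n + 1)), nn k * ‖u k‖
      ≤ 23 * ∑ j ∈ Finset.range (n + 1), lam ^ j * √(Fe B j u) := by
  refine (dy_sum B (f := fun k => nn k * ‖u k‖) (fun k => mul_nonneg (nn_nonneg k) (norm_nonneg _))
    (by simp [nn_eq_zero.2 rfl]) n).trans ?_
  rw [Finset.mul_sum]
  exact Finset.sum_le_sum fun j _ => shell_le (sh_le_Fe B j u)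

lemma quarter {k : K} {n : ℕ} (h : (2 : ℝ) ^ n ≤ 4 * nn k) : (2 : ℝ) ^ (n - 2) ≤ nn k := by
  rcases Nat.lt_or_ge n 2 with h2 | h2
  · have h3 : n - 2 = 0 := by omega
    rw [h3, pow_zero]
    apply one_le_nn
    rintro rfl
    rw [nn_eq_zero.2 rfl] at h
    have : (0 : ℝ) < 2 ^ n := by positivity
    linarith
  · obtain ⟨d, rfl⟩ := Nat.exists_eq_add_of_le h2
    rw [Nat.add_sub_cancel_left]
    rw [pow_add] at h
    linarith

lemma half {k : K} {n : ℕ} (h : (2 : ℝ) ^ n ≤ 2 * nn k) : (2 : ℝ) ^ (n - 1) ≤ nn k := by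
  rcases Nat.lt_or_ge n 1 with h2 | h2
  · have h3 : n - 1 = 0 := by omega
    rw [h3, pow_zero]
    apply one_le_nn
    rintro rfl
    rw [nn_eq_zero.2 rfl] at h
    have : (0 : ℝ) < 2 ^ n := by positivity
    linarith
  · obtain ⟨d, rfl⟩ := Nat.exists_eq_add_of_le h2
    rw [Nat.add_sub_cancel_left]
    rw [pow_add] at h
    linarith

/-- the flux through the scale `n` -/
lemma flux_W {B : Finset K} (hB : ∀ k ∈ B, -k ∈ B) {u : K → C3} (hs : ∀ k, k ∉ B → u k = 0)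
    (hsym : Sym u) (hdiv : ∀ k, dt k (u k) = 0) (n : ℕ) :
    |∑ k ∈ B, W (2 ^ n) (nn k) * (2 * (ipc (Bf u u k) (u k)).re)|
      ≤ 8000 * (∑ j ∈ Finset.range (n + 1), lam ^ j * √(Fe B j u)) * Fe B (n - 2) u := by
  have hN : (0 : ℝ) < 2 ^ n := by positivity
  have h1 := flux hB hs hsym hdiv (w := fun k => W (2 ^ n) (nn k)) (φ := fun k => Ph (2 ^ n) (nn k))
    (ψ := fun k => Ps (2 ^ n) (nn k)) (fun k => by simp only [nn_neg])
    (fun k => Ph_nonneg (nn_nonneg k)) (fun k l => by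
      refine triW hN (nn_nonneg _) (nn_nonneg _) ?_ ?_
      · have := nn_sub_le k l; linarith
      · exact nn_sub_le' k l)
  refine h1.trans ?_
  have h2 : ∑ k ∈ B, Ph (2 ^ n) (nn k) * ‖u k‖
      ≤ 46 * ∑ j ∈ Finset.range (n + 1), lam ^ j * √(Fe B j u) := by
    have h3 : ∑ k ∈ B, Ph (2 ^ n) (nn k) * ‖u k‖
        = 2 * ∑ k ∈ B.filter (fun k => nn k < 2 ^ (n + 1)), nn k * ‖u k‖ := by
      rw [Finset.sum_filter, Finset.mul_sum]
      refine Finset.sum_congr rfl fun k _ => ?_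
      unfold Ph
      rw [show (2 : ℝ) * 2 ^ n = 2 ^ (n + 1) by rw [pow_succ]; ring]
      split_ifs
      · ring
      · ring
    rw [h3]
    have := low_sum B n u
    linarith
  have h4 : ∑ k ∈ B, (Ps (2 ^ n) (nn k) * ‖u k‖) ^ 2 ≤ Fe B (n - 2) u := by
    refine le_trans ?_ (high_le_Fe B (n - 2) u)
    rw [Finset.sum_filter]
    refine Finset.sum_le_sum fun k _ => ?_
    unfold Ps
    by_cases h : (2 : ℝ) ^ n ≤ 4 * nn k
    · rw [if_pos h, if_pos (quarter h), one_mul]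
    · rw [if_neg h]
      split_ifs
      · simp
      · simp
  have hs0 : 0 ≤ ∑ j ∈ Finset.range (n + 1), lam ^ j * √(Fe B j u) :=
    Finset.sum_nonneg fun j _ => by have := lam_pos; positivity
  have h5 : 0 ≤ ∑ k ∈ B, (Ps (2 ^ n) (nn k) * ‖u k‖) ^ 2 := Finset.sum_nonneg fun _ _ => by positivity
  have hpi : Real.pi ≤ 3.15 := Real.pi_lt_d2.le
  have hpi0 := Real.pi_pos
  calc 54 * Real.pi * (∑ k ∈ B, Ph (2 ^ n) (nn k) * ‖u k‖) * ∑ k ∈ B, (Ps (2 ^ n) (nn k) * ‖u k‖) ^ 2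
      ≤ 54 * 3.15 * (46 * ∑ j ∈ Finset.range (n + 1), lam ^ j * √(Fe B j u)) * Fe B (n - 2) u := by
        apply mul_le_mul _ h4 h5 (by positivity)
        apply mul_le_mul _ h2 _ (by positivity)
        · linarith
        · exact Finset.sum_nonneg fun k _ => mul_nonneg (Ph_nonneg (nn_nonneg k)) (norm_nonneg _)
    _ ≤ _ := by
        apply mul_le_mul_of_nonneg_right _ (Fe_nonneg _ _ _)
        nlinarith

end Pool.Agent.K1H29.SH
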