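import Pool.Agent.K1H29.SH.Hier
import Pool.Agent.K1H29.SH.Dy

/-!
# Galerkin trajectories: uniform bounds
-/

open Set ComplexConjugate

namespace Pool.Agent.K1H29.SH

open Pool.Agent.H356R3.NS

/-- A trajectory of the Galerkin system with the frequencies in `B`. -/
structure Gal (m : K → ℝ) (B : Finset K) (T : ℝ) (V : K → C3) (u : ℝ → K → C3) : Prop where
  symB : ∀ k ∈ B, -k ∈ B
  supp : ∀ t ∈ Icc 0 T, ∀ k, k ∉ B → u t k = 0
  sym : ∀ t ∈ Icc 0 T, Sym (u t)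
  div : ∀ t ∈ Icc 0 T, ∀ k, dt k (u t k) = 0
  init : ∀ k ∈ B, u 0 k = V k
  der : ∀ k ∈ B, ∀ t ∈ Icc 0 T,
    HasDerivWithinAt (fun s => u s k) (-(m k) • u t k + Bf (u t) (u t) k) (Icc 0 T) t

lemma en_deriv {f : ℝ → C3} {f' : C3} {S : Set ℝ} {t : ℝ} (h : HasDerivWithinAt f f' S t) :
    HasDerivWithinAt (fun s => en (f s)) (2 * (ipc f' (f t)).re) S t := by
  have h1 := hasDerivWithinAt_pi.1 h
  have h2 : ∀ i, HasDerivWithinAt (fun s => ‖f s i‖ ^ 2) (2 * inner ℝ (f t i) (f' i)) S t :=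
    fun i => (h1 i).norm_sq
  have h3 : HasDerivWithinAt (fun s => ∑ i, ‖f s i‖ ^ 2) (∑ i, 2 * inner ℝ (f t i) (f' i)) S t :=
    HasDerivWithinAt.fun_sum fun i _ => h2 i
  refine h3.congr_deriv ?_
  unfold ipc
  rw [Complex.re_sum, Finset.mul_sum]
  refine Finset.sum_congr rfl fun i _ => ?_
  rw [Complex.inner]

lemma ipc_add_left (v v' w : C3) : ipc (v + v') w = ipc v w + ipc v' w := by
  unfold ipc
  rw [← Finset.sum_add_distrib]
  exact Finset.sum_congr rfl fun i _ => by simp [add_mul]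

lemma ipc_smul_left (c : ℝ) (v w : C3) : ipc (c • v) w = (c : ℂ) * ipc v w := by
  unfold ipc
  rw [Finset.mul_sum]
  exact Finset.sum_congr rfl fun i _ => by simp [mul_assoc]

variable {m : K → ℝ} {B : Finset K} {T : ℝ} {V : K → C3} {u : ℝ → K → C3}

lemma Gal.dW (h : Gal m B T V u) (w : K → ℝ) {t : ℝ} (ht : t ∈ Icc 0 T) :
    HasDerivWithinAt (fun s => ∑ k ∈ B, w k * en (u s k))
      (-(2 * ∑ k ∈ B, w k * (m k * en (u t k))) +
        ∑ k ∈ B, w k * (2 * (ipc (Bf (u t) (u t) k) (u t k)).re)) (Icc 0 T) t := by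
  have h1 : HasDerivWithinAt (fun s => ∑ k ∈ B, w k * en (u s k))
      (∑ k ∈ B, w k * (2 * (ipc (-(m k) • u t k + Bf (u t) (u t) k) (u t k)).re)) (Icc 0 T) t :=
    HasDerivWithinAt.fun_sum fun k hk => (en_deriv (h.der k hk t ht)).const_mul (w k)
  refine h1.congr_deriv ?_
  rw [Finset.mul_sum, ← Finset.sum_neg_distrib, ← Finset.sum_add_distrib]
  refine Finset.sum_congr rfl fun k _ => ?_
  rw [ipc_add_left, ipc_smul_left, ipc_self, Complex.add_re, ← Complex.ofReal_mul,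
    Complex.ofReal_re]
  ring

lemma Gal.energy (h : Gal m B T V u) (hm : ∀ k, 0 ≤ m k) {t : ℝ} (ht : t ∈ Icc 0 T) :
    ∑ k ∈ B, en (u t k) ≤ ∑ k ∈ B, en (V k) := by
  have h1 := mvi (f := fun s => ∑ k ∈ B, (fun _ => (1 : ℝ)) k * en (u s k)) (K := 0)
    (fun s hs => h.dW (fun _ => 1) hs) le_rfl ht.1 ht.2 (fun s hs => by
      have hs' : s ∈ Icc 0 T := ⟨hs.1, hs.2.trans ht.2⟩
      have h2 := flux h.symB (h.supp s hs') (h.sym s hs') (h.div s hs') (w := fun _ => 1)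
        (φ := fun _ => 0) (ψ := fun _ => 0) (fun _ => rfl) (fun _ => le_rfl) (fun k l => by simp)
      have h3 := abs_nonpos_iff.1 (h2.trans (by simp))
      rw [h3, add_zero]
      have : 0 ≤ ∑ k ∈ B, (1 : ℝ) * (m k * en (u s k)) :=
        Finset.sum_nonneg fun k _ => by rw [one_mul]; exact mul_nonneg (hm k) (en_nonneg _)
      linarith)
  simp only [one_mul, zero_mul] at h1
  have h4 : ∑ k ∈ B, en (u 0 k) = ∑ k ∈ B, en (V k) :=
    Finset.sum_congr rfl fun k hk => by rw [h.init k hk]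
  linarith

lemma Gal.hi (h : Gal m B T V u) (hm : ∀ k, 0 ≤ m k) {μ : ℕ → ℝ}
    (hμm : ∀ i k, (2 : ℝ) ^ i < 2 * nn k → μ i ≤ m k) {E : ℝ} (hE : ∑ k ∈ B, en (V k) ≤ E) :
    Hi 8000 lam E T μ (fun n t => Fe B n (u t)) where
  nn := fun n t _ => Fe_nonneg _ _ _
  mono := fun n t _ => Fe_anti _ _ _
  en := fun t ht => (Fe_le _ _ _).trans ((h.energy hm ht).trans hE)
  der := fun n => by
    refine ⟨fun t => -(2 * ∑ k ∈ B, W (2 ^ n) (SH.nn k) * (m k * SH.en (u t k))) +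
        ∑ k ∈ B, W (2 ^ n) (SH.nn k) * (2 * (ipc (Bf (u t) (u t) k) (u t k)).re), fun t ht =>
        ⟨h.dW (fun k => W (2 ^ n) (SH.nn k)) ht, fun i hi => ?_⟩⟩
    have h1 := flux_W h.symB (h.supp t ht) (h.sym t ht) (h.div t ht) n
    have h2 := (le_abs_self _).trans h1
    have h3 : μ i * Fe B i (u t) ≤ ∑ k ∈ B, W (2 ^ n) (SH.nn k) * (m k * SH.en (u t k)) := by
      unfold Fe
      rw [Finset.mul_sum]
      refine Finset.sum_le_sum fun k _ => ?_
      rcases le_or_gt (2 * SH.nn k) (2 ^ i) with h4 | h4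
      · rw [W_eq_zero (by positivity) h4, zero_mul, mul_zero]
        exact mul_nonneg (W_nonneg _ _) (mul_nonneg (hm k) (en_nonneg _))
      · have h5 := hμm i k h4
        have h6 : W (2 ^ i) (SH.nn k) ≤ W (2 ^ n) (SH.nn k) := by
          rcases eq_or_lt_of_le hi with h7 | h7
          · rw [h7]
          · refine W_anti (by positivity) ?_ _
            rw [← pow_succ']
            exact pow_le_pow_right₀ (by norm_num) h7
        calc μ i * (W (2 ^ i) (SH.nn k) * SH.en (u t k))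
            ≤ m k * (W (2 ^ i) (SH.nn k) * SH.en (u t k)) :=
              mul_le_mul_of_nonneg_right h5 (mul_nonneg (W_nonneg _ _) (en_nonneg _))
          _ ≤ m k * (W (2 ^ n) (SH.nn k) * SH.en (u t k)) :=
              mul_le_mul_of_nonneg_left (mul_le_mul_of_nonneg_right h6 (en_nonneg _)) (hm k)
          _ = _ := by ring
    linarith

/-! ### The polynomial weights -/

/-- the weighted energy of the scales above `n` -/
noncomputable def We (σ : ℕ) (B : Finset K) (n : ℕ) (u : K → C3) : ℝ :=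
  ∑ k ∈ B, rh σ (2 ^ n) (nn k) * en (u k)

lemma We_nonneg (σ : ℕ) (B : Finset K) (n : ℕ) (u : K → C3) : 0 ≤ We σ B n u :=
  Finset.sum_nonneg fun _ _ => mul_nonneg (rh_nonneg _ _ _) (en_nonneg _)

lemma flux_rh {u : K → C3} (hB : ∀ k ∈ B, -k ∈ B) (hs : ∀ k, k ∉ B → u k = 0)
    (hsym : Sym u) (hdiv : ∀ k, dt k (u k) = 0) (σ n : ℕ) :
    |∑ k ∈ B, rh σ (2 ^ n) (nn k) * (2 * (ipc (Bf u u k) (u k)).re)|
      ≤ 171 * (2 * (σ + 1) * 2 ^ σ) * (∑ k ∈ B, nn k * ‖u k‖) * (Fe B (n - 1) u + We σ B n u) := by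
  have hN : (0 : ℝ) < 2 ^ n := by positivity
  set Kσ : ℝ := 2 * (σ + 1) * 2 ^ σ with hK
  have hK0 : 0 ≤ Kσ := by positivity
  have h1 := flux hB hs hsym hdiv (w := fun k => rh σ (2 ^ n) (nn k)) (φ := fun k => Kσ * nn k)
    (ψ := fun k => Pt σ (2 ^ n) (nn k)) (fun k => by simp only [nn_neg])
    (fun k => mul_nonneg hK0 (nn_nonneg k)) (fun k l => by
      refine (trirh (σ := σ) (c := nn l) hN (nn_nonneg _) (nn_nonneg _) ?_ ?_).trans (le_of_eq ?_)
      · have := nn_sub_le k l; linarith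
      · exact nn_sub_le' k l
      · rw [hK]; ring)
  refine h1.trans ?_
  have h2 : ∑ k ∈ B, Kσ * nn k * ‖u k‖ = Kσ * ∑ k ∈ B, nn k * ‖u k‖ := by
    rw [Finset.mul_sum]; exact Finset.sum_congr rfl fun _ _ => by ring
  have h4 : ∑ k ∈ B, (Pt σ (2 ^ n) (nn k) * ‖u k‖) ^ 2 ≤ Fe B (n - 1) u + We σ B n u := by
    unfold Fe We
    rw [← Finset.sum_add_distrib]
    refine Finset.sum_le_sum fun k _ => ?_
    have hn0 : 0 ≤ W (2 ^ (n - 1)) (nn k) * en (u k) := mul_nonneg (W_nonneg _ _) (en_nonneg _)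
    have hr0 : 0 ≤ rh σ (2 ^ n) (nn k) * en (u k) := mul_nonneg (rh_nonneg _ _ _) (en_nonneg _)
    unfold Pt
    split_ifs with h
    · rw [W_eq_one (by positivity) (half h), mul_pow]
      have e1 : th σ (2 ^ n) (nn k) ^ 2 = 1 + rh σ (2 ^ n) (nn k) := by unfold rh; ring
      rw [e1, ← add_mul]
      apply mul_le_mul_of_nonneg_left (norm_sq_le_en _)
      have := rh_nonneg σ (2 ^ n) (nn k)
      linarith
    · rw [zero_mul]
      have : (0 : ℝ) ^ 2 = 0 := by norm_num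
      linarith
  have hs0 : 0 ≤ ∑ k ∈ B, nn k * ‖u k‖ :=
    Finset.sum_nonneg fun k _ => mul_nonneg (nn_nonneg k) (norm_nonneg _)
  have hpi : Real.pi ≤ 3.15 := Real.pi_lt_d2.le
  have hpi0 := Real.pi_pos
  rw [h2]
  have h5 : 0 ≤ ∑ k ∈ B, (Pt σ (2 ^ n) (nn k) * ‖u k‖) ^ 2 := Finset.sum_nonneg fun _ _ => by positivity
  have h6 : 54 * Real.pi ≤ 171 := by linarith
  calc 54 * Real.pi * (Kσ * ∑ k ∈ B, nn k * ‖u k‖) * ∑ k ∈ B, (Pt σ (2 ^ n) (nn k) * ‖u k‖) ^ 2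
      ≤ 171 * (Kσ * ∑ k ∈ B, nn k * ‖u k‖) * (Fe B (n - 1) u + We σ B n u) := by
        apply mul_le_mul _ h4 h5 (by positivity)
        exact mul_le_mul_of_nonneg_right h6 (by positivity)
    _ = _ := by ring

lemma Gal.dWe (h : Gal m B T V u) {μn : ℝ} {n : ℕ}
    (hμm : ∀ k, (2 : ℝ) ^ n < 2 * nn k → μn ≤ m k) (σ : ℕ) :
    ∃ D : ℝ → ℝ, ∀ t ∈ Icc 0 T, HasDerivWithinAt (fun s => We σ B n (u s)) (D t) (Icc 0 T) t ∧
      D t ≤ -(2 * (μn * We σ B n (u t))) + 171 * (2 * (σ + 1) * 2 ^ σ) *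
        (∑ k ∈ B, nn k * ‖u t k‖) * (Fe B (n - 1) (u t) + We σ B n (u t)) := by
  refine ⟨_, fun t ht => ⟨h.dW (fun k => rh σ (2 ^ n) (nn k)) ht, ?_⟩⟩
  have h1 := flux_rh h.symB (h.supp t ht) (h.sym t ht) (h.div t ht) σ n
  have h2 := (le_abs_self _).trans h1
  have h3 : μn * We σ B n (u t) ≤ ∑ k ∈ B, rh σ (2 ^ n) (nn k) * (m k * en (u t k)) := by
    unfold We
    rw [Finset.mul_sum]
    refine Finset.sum_le_sum fun k _ => ?_
    rcases le_or_gt (nn k) (2 ^ n) with h4 | h4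
    · rw [rh_eq_zero (by positivity) h4]; simp
    · have h5 : μn ≤ m k := hμm k (by have : (0 : ℝ) < 2 ^ n := by positivity
                                      linarith)
      calc μn * (rh σ (2 ^ n) (nn k) * en (u t k)) ≤ m k * (rh σ (2 ^ n) (nn k) * en (u t k)) :=
            mul_le_mul_of_nonneg_right h5 (mul_nonneg (rh_nonneg _ _ _) (en_nonneg _))
        _ = _ := by ring
  linarith

/-- all frequencies -/
lemma all_sum (B : Finset K) (n : ℕ) (u : K → C3) :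
    ∑ k ∈ B, nn k * ‖u k‖ ≤ 23 * ∑ j ∈ Finset.range (n + 1), lam ^ j * √(Fe B j u)
      + 69 * (lam ^ n * √(Fe B n u + We 3 B n u)) := by
  set G := Fe B n u + We 3 B n u with hG
  have hG0 : 0 ≤ G := add_nonneg (Fe_nonneg _ _ _) (We_nonneg _ _ _ _)
  -- all frequencies are bounded
  obtain ⟨J, hJn, hJ⟩ : ∃ J, n ≤ J ∧ ∀ k ∈ B, nn k < 2 ^ (J + 1) := by
    obtain ⟨R, hR⟩ : ∃ R : ℕ, ∀ k ∈ B, H459R3.NS.N k ≤ R :=
      ⟨B.sup H459R3.NS.N, fun k hk => Finset.le_sup hk⟩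
    refine ⟨n + R, by omega, fun k hk => ?_⟩
    have h1 := hR k hk
    have h2 : R < 2 ^ (n + R + 1) := by
      calc R < 2 ^ R := Nat.lt_two_pow_self
        _ ≤ 2 ^ (n + R + 1) := Nat.pow_le_pow_right (by norm_num) (by omega)
    have h3 : H459R3.NS.N k < 2 ^ (n + R + 1) := by omega
    unfold nn
    exact_mod_cast h3
  have h1 : ∑ k ∈ B, nn k * ‖u k‖ ≤ ∑ j ∈ Finset.range (J + 1), ∑ k ∈ sh B j, nn k * ‖u k‖ := by
    have := dy_sum B (f := fun k => nn k * ‖u k‖)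
      (fun k => mul_nonneg (nn_nonneg k) (norm_nonneg _)) (by simp [nn_eq_zero.2 rfl]) J
    rwa [Finset.filter_true_of_mem hJ] at this
  refine h1.trans ?_
  have hsplit : J + 1 = (n + 1) + (J - n) := by omega
  rw [hsplit, Finset.sum_range_add]
  apply add_le_add
  · rw [Finset.mul_sum]
    exact Finset.sum_le_sum fun j _ => shell_le (sh_le_Fe B j u)
  · have h2 : ∀ i ∈ Finset.range (J - n), ∑ k ∈ sh B (n + 1 + i), nn k * ‖u k‖
        ≤ 23 * (lam ^ n * √G) * (3 / 4) ^ (i + 1) := by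
      intro i _
      have h3 : ∑ k ∈ sh B (n + 1 + i), ‖u k‖ ^ 2 ≤ G / 64 ^ (i + 1) := by
        rw [le_div_iff₀ (by positivity), Finset.sum_mul, hG]
        unfold Fe We
        rw [← Finset.sum_add_distrib]
        refine le_trans ?_ (Finset.sum_le_sum_of_subset_of_nonneg (s := sh B (n + 1 + i))
          (Finset.filter_subset _ _) fun k _ _ => add_nonneg
            (mul_nonneg (W_nonneg _ _) (en_nonneg _)) (mul_nonneg (rh_nonneg _ _ _) (en_nonneg _)))
        refine Finset.sum_le_sum fun k hk => ?_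
        unfold sh at hk
        rw [Finset.mem_filter] at hk
        have hk1 := hk.2.1
        have e1 : (2 : ℝ) ^ n ≤ nn k := by
          refine le_trans ?_ hk1
          exact pow_le_pow_right₀ (by norm_num) (by omega)
        rw [W_eq_one (by positivity) e1, ← add_mul, mul_comm]
        apply mul_le_mul _ (norm_sq_le_en _) (by positivity)
          (by have := rh_nonneg 3 (2 ^ n) (nn k); linarith)
        have e2 : 1 + rh 3 (2 ^ n) (nn k) = th 3 (2 ^ n) (nn k) ^ 2 := by unfold rh; ring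
        rw [e2]
        have e3 : (2 : ℝ) ^ (i + 1) ≤ max 1 (nn k / 2 ^ n) := by
          apply le_max_of_le_right
          rw [le_div_iff₀ (by positivity), ← pow_add]
          refine le_trans (le_of_eq ?_) hk1
          congr 1; omega
        unfold th
        rw [← pow_mul]
        calc (64 : ℝ) ^ (i + 1) = (2 ^ (i + 1)) ^ (3 * 2) := by
              rw [← pow_mul, mul_comm (i + 1), pow_mul]; norm_num
          _ ≤ _ := pow_le_pow_left₀ (by positivity) e3 _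
      refine (shell_le h3).trans ?_
      rw [mul_assoc]
      apply mul_le_mul_of_nonneg_left _ (by norm_num)
      have e4 : √(G / 64 ^ (i + 1)) = √G / 8 ^ (i + 1) := by
        rw [Real.sqrt_div hG0]
        congr 1
        rw [show (64 : ℝ) ^ (i + 1) = (8 ^ (i + 1)) ^ 2 by rw [← pow_mul, mul_comm, pow_mul]; norm_num]
        exact Real.sqrt_sq (by positivity)
      rw [e4]
      have e5 : lam ≤ 6 := by
        unfold lam
        rw [Real.sqrt_le_left (by norm_num)]; norm_num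
      have e6 : lam ^ (i + 1) / 8 ^ (i + 1) ≤ (3 / 4) ^ (i + 1) := by
        rw [← div_pow]
        exact pow_le_pow_left₀ (by have := lam_pos; positivity) (by linarith) _
      calc lam ^ (n + 1 + i) * (√G / 8 ^ (i + 1))
          = (lam ^ n * √G) * (lam ^ (i + 1) / 8 ^ (i + 1)) := by
            rw [show n + 1 + i = n + (i + 1) by omega, pow_add]; ring
        _ ≤ _ := mul_le_mul_of_nonneg_left e6 (by have := lam_pos; positivity)
    refine (Finset.sum_le_sum h2).trans ?_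
    rw [← Finset.mul_sum]
    have h5 : ∀ r : ℕ, ∑ i ∈ Finset.range r, ((3 : ℝ) / 4) ^ (i + 1) ≤ 3 * (1 - (3 / 4) ^ r) := by
      intro r
      induction r with
      | zero => simp
      | succ r ih =>
        rw [Finset.sum_range_succ]
        have : ((3 : ℝ) / 4) ^ (r + 1) = 3 / 4 * (3 / 4) ^ r := by ring
        linarith
    have h6 := h5 (J - n)
    have h7 : (0 : ℝ) ≤ (3 / 4) ^ (J - n) := by positivity
    calc 23 * (lam ^ n * √G) * ∑ i ∈ Finset.range (J - n), ((3 : ℝ) / 4) ^ (i + 1)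
        ≤ 23 * (lam ^ n * √G) * 3 :=
          mul_le_mul_of_nonneg_left (by linarith) (by have := lam_pos; positivity)
      _ = _ := by ring

/-- the small constant -/
noncomputable def eps : ℝ := 1 / 5000000

lemma eps_pos : 0 < eps := by unfold eps; norm_num

/-- low part of the velocity gradient -/
lemma low_bound {n : ℕ} {ρ : ℝ} (hρ : 0 ≤ ρ) {u : K → C3}
    (h : ∀ j ≤ n, √(Fe B j u) ≤ 2 ^ (n - j) * ρ) :
    ∑ j ∈ Finset.range (n + 1), lam ^ j * √(Fe B j u) ≤ 2 * (lam ^ n * ρ) := by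
  have key : ∀ n : ℕ, ∑ j ∈ Finset.range (n + 1), lam ^ j * 2 ^ (n - j) ≤ 2 * lam ^ n := by
    intro n
    induction n with
    | zero => simp
    | succ n ih =>
      rw [Finset.sum_range_succ, Nat.sub_self, pow_zero, mul_one]
      have e : ∑ j ∈ Finset.range (n + 1), lam ^ j * 2 ^ (n + 1 - j)
          = 2 * ∑ j ∈ Finset.range (n + 1), lam ^ j * 2 ^ (n - j) := by
        rw [Finset.mul_sum]
        refine Finset.sum_congr rfl fun j hj => ?_
        have : j ≤ n := Nat.lt_succ_iff.1 (Finset.mem_range.1 hj)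
        rw [show n + 1 - j = (n - j) + 1 by omega, pow_succ]; ring
      rw [e]
      have h4 := four_le_lam
      have h5 : 0 < lam ^ n := by have := lam_pos; positivity
      have h6 : lam ^ (n + 1) = lam * lam ^ n := by rw [pow_succ]; ring
      nlinarith
  calc _ ≤ ∑ j ∈ Finset.range (n + 1), lam ^ j * (2 ^ (n - j) * ρ) := by
        refine Finset.sum_le_sum fun j hj => ?_
        have : j ≤ n := Nat.lt_succ_iff.1 (Finset.mem_range.1 hj)
        exact mul_le_mul_of_nonneg_left (h j this) (by have := lam_pos; positivity)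
    _ = (∑ j ∈ Finset.range (n + 1), lam ^ j * 2 ^ (n - j)) * ρ := by
        rw [Finset.sum_mul]; exact Finset.sum_congr rfl fun _ _ => by ring
    _ ≤ (2 * lam ^ n) * ρ := mul_le_mul_of_nonneg_right (key n) hρ
    _ = _ := by ring

/-- a bound is not crossed -/
lemma nocross {f D : ℝ → ℝ} {T R : ℝ} (hd : ∀ t ∈ Icc 0 T, HasDerivWithinAt f (D t) (Icc 0 T) t)
    (h0 : f 0 ≤ R) (hD : ∀ t ∈ Icc 0 T, f t = R → D t < 0) : ∀ t ∈ Icc 0 T, f t ≤ R := by
  have key := image_le_of_deriv_right_lt_deriv_boundary (f := f) (f' := D) (a := 0) (b := T)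
    (fun t ht => (hd t ht).continuousWithinAt)
    (fun t ht => (hd t (Ico_subset_Icc_self ht)).mono_of_mem_nhdsWithin
      (Icc_mem_nhdsGE_of_mem ht)) (B := fun _ => R) (B' := fun _ => 0) h0
    (fun t => hasDerivAt_const t R) (fun t ht he => hD t (Ico_subset_Icc_self ht) he)
  exact fun t ht => key ht

/-- The barrier: the velocity gradient is bounded. -/
lemma Gal.barrier (h : Gal m B T V u) {μn : ℝ} (hμ0 : 0 < μn) {n : ℕ}
    (hμm : ∀ k, (2 : ℝ) ^ n < 2 * nn k → μn ≤ m k)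
    (hF : ∀ j ≤ n, ∀ t ∈ Icc 0 T, √(Fe B j (u t)) ≤ 2 ^ (n - j) * (eps * (μn / lam ^ n)))
    (hW : We 3 B n (u 0) ≤ (eps * (μn / lam ^ n)) ^ 2) :
    ∀ t ∈ Icc 0 T, ∑ k ∈ B, nn k * ‖u t k‖ ≤ μn := by
  set ρ := eps * (μn / lam ^ n) with hρ
  have hlp := lam_pos
  have hρ0 : 0 < ρ := mul_pos eps_pos (div_pos hμ0 (by positivity))
  have hμρ : lam ^ n * ρ = eps * μn := by rw [hρ]; field_simp
  have hFn : ∀ t ∈ Icc 0 T, Fe B n (u t) ≤ ρ ^ 2 := by
    intro t ht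
    have h1 := hF n le_rfl t ht
    rw [Nat.sub_self, pow_zero, one_mul] at h1
    calc Fe B n (u t) = √(Fe B n (u t)) ^ 2 := (Real.sq_sqrt (Fe_nonneg _ _ _)).symm
      _ ≤ ρ ^ 2 := pow_le_pow_left₀ (Real.sqrt_nonneg _) h1 2
  have hFn1 : ∀ t ∈ Icc 0 T, Fe B (n - 1) (u t) ≤ 4 * ρ ^ 2 := by
    intro t ht
    have h1 := hF (n - 1) (by omega) t ht
    have h2 : (2 : ℝ) ^ (n - (n - 1)) ≤ 2 := by
      calc (2 : ℝ) ^ (n - (n - 1)) ≤ 2 ^ 1 := pow_le_pow_right₀ (by norm_num) (by omega)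
        _ = 2 := by norm_num
    have h3 : √(Fe B (n - 1) (u t)) ≤ 2 * ρ := h1.trans (mul_le_mul_of_nonneg_right h2 hρ0.le)
    calc Fe B (n - 1) (u t) = √(Fe B (n - 1) (u t)) ^ 2 := (Real.sq_sqrt (Fe_nonneg _ _ _)).symm
      _ ≤ (2 * ρ) ^ 2 := pow_le_pow_left₀ (Real.sqrt_nonneg _) h3 2
      _ = _ := by ring
  -- bound of the gradient in terms of the weighted energy
  have hgrad : ∀ t ∈ Icc 0 T, We 3 B n (u t) ≤ ρ ^ 2 → ∑ k ∈ B, nn k * ‖u t k‖ ≤ 150 * (lam ^ n * ρ) := by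
    intro t ht hWt
    refine (all_sum B n (u t)).trans ?_
    have h1 := low_bound hρ0.le (fun j hj => hF j hj t ht)
    have h2 : √(Fe B n (u t) + We 3 B n (u t)) ≤ 3 / 2 * ρ := by
      rw [Real.sqrt_le_left (by positivity)]
      have := hFn t ht
      nlinarith [sq_nonneg ρ]
    have h3 := mul_le_mul_of_nonneg_left h2 (by positivity : 0 ≤ lam ^ n)
    nlinarith [mul_pos (pow_pos hlp n) hρ0]
  obtain ⟨D, hD⟩ := h.dWe hμm 3
  have hbar : ∀ t ∈ Icc 0 T, We 3 B n (u t) ≤ ρ ^ 2 := by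
    refine nocross (fun t ht => (hD t ht).1) hW fun t ht he => ?_
    have h1 := (hD t ht).2
    have h2 := hgrad t ht he.le
    have h3 := hFn1 t ht
    have h4 : 171 * (2 * ((3 : ℕ) + 1) * 2 ^ 3) * (∑ k ∈ B, nn k * ‖u t k‖) *
        (Fe B (n - 1) (u t) + We 3 B n (u t))
        ≤ 171 * (2 * ((3 : ℕ) + 1) * 2 ^ 3) * (150 * (lam ^ n * ρ)) * (5 * ρ ^ 2) := by
      apply mul_le_mul
      · exact mul_le_mul_of_nonneg_left h2 (by positivity)
      · linarith
      · exact add_nonneg (Fe_nonneg _ _ _) (We_nonneg _ _ _ _)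
      · positivity
    rw [he] at h1 h4
    rw [hμρ] at h4
    push_cast at h1 h4
    have h5 : 171 * (2 * (3 + 1) * 2 ^ 3) * (150 * (eps * μn)) * (5 * ρ ^ 2)
        = 8208000 * eps * (μn * ρ ^ 2) := by ring
    rw [h5] at h4
    have h6 : 0 < μn * ρ ^ 2 := by positivity
    have h7 : 8208000 * eps < 2 := by unfold eps; norm_num
    nlinarith
  intro t ht
  refine (hgrad t ht (hbar t ht)).trans ?_
  rw [hμρ]
  have : 150 * (eps * μn) = (150 * eps) * μn := by ring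
  rw [this]
  have h8 : 150 * eps ≤ 1 := by unfold eps; norm_num
  nlinarith

/-- Higher norms. -/
lemma Gal.high (h : Gal m B T V u) (hm : ∀ k, 0 ≤ m k) {E G μn R : ℝ} {n σ : ℕ}
    (hE : ∑ k ∈ B, en (V k) ≤ E) (hG : ∀ t ∈ Icc 0 T, ∑ k ∈ B, nn k * ‖u t k‖ ≤ G)
    (hμ0 : 0 < μn) (hμm : ∀ k, (2 : ℝ) ^ n < 2 * nn k → μn ≤ m k)
    (hμG : 171 * (2 * (σ + 1) * 2 ^ σ) * G ≤ μn) (hER : E < R) (hR : We σ B n (u 0) ≤ R) :
    ∀ t ∈ Icc 0 T, We σ B n (u t) ≤ R := by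
  obtain ⟨D, hD⟩ := h.dWe hμm σ
  refine nocross (fun t ht => (hD t ht).1) hR fun t ht he => ?_
  have h1 := (hD t ht).2
  have h2 : Fe B (n - 1) (u t) ≤ E := (Fe_le _ _ _).trans ((h.energy hm ht).trans hE)
  have h3 : 171 * (2 * (σ + 1) * 2 ^ σ) * (∑ k ∈ B, nn k * ‖u t k‖) *
      (Fe B (n - 1) (u t) + We σ B n (u t)) ≤ μn * (E + R) := by
    apply mul_le_mul
    · refine le_trans ?_ hμG
      exact mul_le_mul_of_nonneg_left (hG t ht) (by positivity)
    · rw [he]; linarith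
    · exact add_nonneg (Fe_nonneg _ _ _) (We_nonneg _ _ _ _)
    · exact hμ0.le
  rw [he] at h1 h3
  nlinarith

/-- The uniform bounds. -/
theorem unif (hm : ∀ k, 0 ≤ m k) {μ : ℕ → ℝ} (hμ0 : ∀ n, 0 ≤ μ n)
    (hμm : ∀ i k, (2 : ℝ) ^ i < 2 * nn k → μ i ≤ m k) (hinf : ∀ R, ∃ n, R < μ n)
    {E : ℝ} (hE : ∀ B : Finset K, ∑ k ∈ B, en (V k) ≤ E)
    (hV : ∀ σ : ℕ, ∃ C, ∀ B : Finset K, ∑ k ∈ B, nn k ^ (2 * σ) * en (V k) ≤ C)
    {n0 n1 : ℕ}
    (hin : ∀ i, n0 < i → i ≤ n1 → ∀ B, Fe B i V < (eps * (μ i / lam ^ i)) ^ 2 / 8)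
    (hin' : ∀ i, n0 < i → i ≤ n1 → ∀ B, We 3 B i V ≤ (eps * (μ i / lam ^ i)) ^ 2)
    (hdiv : (512 * 8000 + 9 / eps) * √E < ∑ i ∈ Finset.Ioc n0 n1, μ i / lam ^ i) (σ : ℕ) :
    ∃ C, ∀ (B : Finset K) (T : ℝ) (u : ℝ → K → C3), 0 ≤ T → Gal m B T V u →
      ∀ t ∈ Icc 0 T, ∀ k, nn k ^ (2 * σ) * ‖u t k‖ ^ 2 ≤ C := by
  set G : ℝ := ∑ i ∈ Finset.Ioc n0 n1, μ i with hGd
  have hG0 : 0 ≤ G := Finset.sum_nonneg fun i _ => hμ0 i
  obtain ⟨n, hn⟩ := hinf (171 * (2 * (σ + 1) * 2 ^ σ) * G)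
  obtain ⟨C, hC⟩ := hV σ
  have hμn : 0 < μ n := lt_of_le_of_lt (by positivity) hn
  have hE0 : 0 ≤ E := (hE ∅).trans' (by simp)
  set R : ℝ := max (E + 1) C with hRd
  refine ⟨(2 ^ n) ^ (2 * σ) * (E + R), fun B T u hT h t ht k => ?_⟩
  have hFe0 : ∀ i, Fe B i (u 0) = Fe B i V := fun i => by
    unfold Fe; exact Finset.sum_congr rfl fun k hk => by rw [h.init k hk]
  have hWe0 : ∀ s i, We s B i (u 0) = We s B i V := fun s i => by
    unfold We; exact Finset.sum_congr rfl fun k hk => by rw [h.init k hk]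
  obtain ⟨i, hi0, hi1, hi⟩ := hier (C := 8000) (lam := lam) (ε := eps) (E := E) (T := T) (μ := μ)
    (F := fun n t => Fe B n (u t)) (by norm_num) four_le_lam eps_pos hT hμ0 (h.hi hm hμm (hE B))
    (n0 := n0) (n1 := n1) (fun i h1 h2 => by
      show Fe B i (u 0) < _
      rw [hFe0]; exact hin i h1 h2 B) hdiv
  have hμi : 0 < μ i := by
    by_contra hc
    have h0 : μ i = 0 := le_antisymm (not_lt.1 hc) (hμ0 i)
    have := hin i hi0 hi1 ∅
    rw [h0] at this
    simp [Fe] at this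
  have hgrad := h.barrier hμi (hμm i) hi (by rw [hWe0]; exact hin' i hi0 hi1 B)
  have hgrad' : ∀ t ∈ Icc 0 T, ∑ k ∈ B, nn k * ‖u t k‖ ≤ G := fun t ht =>
    (hgrad t ht).trans (Finset.single_le_sum (f := μ) (fun i _ => hμ0 i)
      (Finset.mem_Ioc.2 ⟨hi0, hi1⟩))
  have hth : ∀ a : ℝ, (a / 2 ^ n) ^ (2 * σ) ≤ 1 + rh σ (2 ^ n) a ∨ a < 0 := by
    intro a
    rcases lt_or_ge a 0 with ha | ha
    · exact Or.inr ha
    · left
      have e1 : 1 + rh σ (2 ^ n) a = th σ (2 ^ n) a ^ 2 := by unfold rh; ring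
      rw [e1]
      unfold th
      rw [← pow_mul, mul_comm σ 2]
      exact pow_le_pow_left₀ (by positivity) (le_max_right _ _) _
  have hWR : We σ B n (u 0) ≤ R := by
    rw [hWe0]
    refine le_trans ?_ ((hC B).trans (le_max_right _ _))
    unfold We
    refine Finset.sum_le_sum fun k _ => mul_le_mul_of_nonneg_right ?_ (en_nonneg _)
    rcases le_or_gt (nn k) (2 ^ n) with h4 | h4
    · rw [rh_eq_zero (by positivity) h4]
      have := nn_nonneg k
      positivity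
    · have h5 : (1 : ℝ) ≤ 2 ^ n := one_le_pow₀ (by norm_num)
      unfold rh th
      rw [← pow_mul, mul_comm σ 2]
      have h6 : max 1 (nn k / 2 ^ n) ≤ nn k := by
        apply max_le (by linarith)
        exact div_le_self (nn_nonneg k) h5
      have h7 := pow_le_pow_left₀ (le_trans zero_le_one (le_max_left 1 (nn k / 2 ^ n))) h6 (2 * σ)
      linarith
  have hWt := h.high hm (σ := σ) (R := R) (hE B) hgrad' hμn (hμm n) hn.le
    (by have := le_max_left (E + 1) C; linarith) hWR t ht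
  by_cases hk : k ∈ B
  · have h8 : en (u t k) ≤ E := by
      refine le_trans ?_ ((h.energy hm ht).trans (hE B))
      exact Finset.single_le_sum (f := fun k => en (u t k)) (fun _ _ => en_nonneg _) hk
    have h9 : rh σ (2 ^ n) (nn k) * en (u t k) ≤ R := by
      refine le_trans ?_ hWt
      exact Finset.single_le_sum (f := fun k => rh σ (2 ^ n) (nn k) * en (u t k))
        (fun _ _ => mul_nonneg (rh_nonneg _ _ _) (en_nonneg _)) hk
    have h10 : (nn k / 2 ^ n) ^ (2 * σ) ≤ 1 + rh σ (2 ^ n) (nn k) := by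
      rcases hth (nn k) with h | h
      · exact h
      · exact absurd h (not_lt.2 (nn_nonneg k))
    have h11 : nn k ^ (2 * σ) = (2 ^ n) ^ (2 * σ) * (nn k / 2 ^ n) ^ (2 * σ) := by
      rw [← mul_pow]; congr 1; field_simp
    rw [h11, mul_assoc]
    apply mul_le_mul_of_nonneg_left _ (by positivity)
    calc (nn k / 2 ^ n) ^ (2 * σ) * ‖u t k‖ ^ 2 ≤ (1 + rh σ (2 ^ n) (nn k)) * en (u t k) :=
          mul_le_mul h10 (norm_sq_le_en _) (by positivity)
            (by have := rh_nonneg σ (2 ^ n) (nn k); linarith)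
      _ ≤ E + R := by linarith
  · rw [h.supp t ht k hk, norm_zero]
    have : 0 ≤ R := le_trans (by linarith) (le_max_left (E + 1) C)
    have : (0:ℝ) ≤ (2 ^ n) ^ (2 * σ) * (E + R) := by positivity
    simpa using this

end Pool.Agent.K1H29.SH
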