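import Pool.Agent.K1H29.SH.Ode
import Pool.Agent.K1H29.SH.Gal

/-!
# Existence of Galerkin trajectories
-/

open Set ComplexConjugate

namespace Pool.Agent.K1H29.SH

open Pool.Agent.H356R3.NS

section

variable (B : Finset K)

/-- extension by zero -/
noncomputable def ext (x : B → C3) (k : K) : C3 := if h : k ∈ B then x ⟨k, h⟩ else 0

variable {B}

lemma ext_of_mem (x : B → C3) {k : K} (h : k ∈ B) : ext B x k = x ⟨k, h⟩ := by
  unfold ext; rw [dif_pos h]

lemma ext_of_notMem (x : B → C3) {k : K} (h : k ∉ B) : ext B x k = 0 := by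
  unfold ext; rw [dif_neg h]

lemma ext_add (x y : B → C3) (k : K) : ext B (x + y) k = ext B x k + ext B y k := by
  unfold ext; split_ifs <;> simp

lemma ext_smul (c : ℝ) (x : B → C3) (k : K) : ext B (c • x) k = c • ext B x k := by
  unfold ext; split_ifs <;> simp

lemma ext_zero (k : K) : ext B 0 k = 0 := by
  unfold ext; split_ifs <;> simp

lemma dt_add' (k : K) (v w : C3) : dt k (v + w) = dt k v + dt k w := by
  unfold dt
  rw [← Finset.sum_add_distrib]
  exact Finset.sum_congr rfl fun i _ => by simp [mul_add]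

lemma dt_smul_real (k : K) (c : ℝ) (v : C3) : dt k (c • v) = (c : ℂ) * dt k v := by
  unfold dt
  rw [Finset.mul_sum]
  exact Finset.sum_congr rfl fun i _ => by simp; ring

variable (B)

/-- real, divergence free fields -/
def Esp : Submodule ℝ (B → C3) where
  carrier := {x | Sym (ext B x) ∧ ∀ k, dt k (ext B x k) = 0}
  add_mem' := by
    rintro x y ⟨h1, h2⟩ ⟨h3, h4⟩
    refine ⟨fun k i => ?_, fun k => ?_⟩
    · rw [ext_add, ext_add, Pi.add_apply, Pi.add_apply, h1, h3, star_add]
    · rw [ext_add, dt_add', h2, h4, add_zero]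
  zero_mem' := by
    refine ⟨fun k i => ?_, fun k => ?_⟩
    · rw [ext_zero, ext_zero]; simp
    · rw [ext_zero]; simp [dt]
  smul_mem' := by
    rintro c x ⟨h1, h2⟩
    refine ⟨fun k i => ?_, fun k => ?_⟩
    · rw [ext_smul, ext_smul, Pi.smul_apply, Pi.smul_apply, h1]
      simp
    · rw [ext_smul, dt_smul_real, h2, mul_zero]

variable {B} (m : K → ℝ)

variable (B) in
/-- the vector field -/
noncomputable def Vf (x : B → C3) : B → C3 :=
  fun k => -(m k) • x k + Bf (ext B x) (ext B x) k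

lemma ext_contDiff (k : K) (i : Fin 3) : ContDiff ℝ 1 fun x : B → C3 => ext B x k i := by
  unfold ext
  split_ifs with h
  · fun_prop
  · simp only [Pi.zero_apply]
    exact contDiff_const

lemma Vf_contDiff : ContDiff ℝ 1 (Vf B m) := by
  rw [contDiff_pi]
  intro k
  rw [contDiff_pi]
  intro i
  have h1 : (fun x : B → C3 => Vf B m x k i)
      = fun x => -(m k) • x k i + ∑ l ∈ B, ∑ j, ∑ j', coef k i j j' *
        (ext B x l j * ext B x (k - l) j') := by
    funext x
    unfold Vf
    rw [Bf_eq_sum (B := B) (fun k hk => ext_of_notMem x hk)]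
    simp only [Pi.add_apply, Pi.smul_apply, Finset.sum_apply]
    rfl
  rw [h1]
  refine ContDiff.add ?_ ?_
  · fun_prop
  · refine ContDiff.sum fun l _ => ContDiff.sum fun j _ => ContDiff.sum fun j' _ => ?_
    exact contDiff_const.mul ((ext_contDiff l j).mul (ext_contDiff _ j'))

lemma Vf_mem (hm : ∀ k, m (-k) = m k) (hB : ∀ k ∈ B, -k ∈ B) {x : B → C3} (hx : x ∈ Esp B) :
    Vf B m x ∈ Esp B := by
  have hext : ∀ k, ext B (Vf B m x) k = if k ∈ B then -(m k) • ext B x k + Bf (ext B x) (ext B x) k else 0 := by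
    intro k
    unfold Vf
    by_cases h : k ∈ B
    · rw [ext_of_mem _ h, if_pos h, ext_of_mem x h]
    · rw [ext_of_notMem _ h, if_neg h]
  have hBn : ∀ k, -k ∈ B ↔ k ∈ B := fun k => ⟨fun h => by simpa using hB _ h, hB k⟩
  refine ⟨fun k i => ?_, fun k => ?_⟩
  · rw [hext, hext]
    by_cases h : k ∈ B
    · rw [if_pos h, if_pos ((hBn k).2 h)]
      have h1 := Bf_sym hx.1 hx.1 k i
      have h2 := hx.1 k i
      simp only [Pi.add_apply, Pi.smul_apply, h1, h2, hm]
      simp
    · rw [if_neg h, if_neg (fun h' => h ((hBn k).1 h'))]; simp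
  · rw [hext]
    split_ifs with h
    · rw [dt_add', dt_smul_real, hx.2]
      have : dt k (Bf (ext B x) (ext B x) k) = 0 := Bf_div _ _ k
      rw [this]; simp
    · simp [dt]

theorem exists_gal {m : K → ℝ} (hm0 : ∀ k, 0 ≤ m k) (hm : ∀ k, m (-k) = m k)
    (hB : ∀ k ∈ B, -k ∈ B) {V : K → C3} (hVs : Sym V) (hVd : ∀ k, dt k (V k) = 0) {T : ℝ}
    (hT : 0 < T) : ∃ u, Gal m B T V u := by
  classical
  have hBn : ∀ k, -k ∈ B ↔ k ∈ B := fun k => ⟨fun h => by simpa using hB _ h, hB k⟩
  -- the vector field on the subspace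
  let X : Esp B → Esp B := fun x => ⟨Vf B m x, Vf_mem m hm hB x.2⟩
  have hlip : ∀ r : ℝ, ∃ K : NNReal, LipschitzOnWith K X (Metric.closedBall 0 r) := by
    intro r
    have h1 : LocallyLipschitzOn (Metric.closedBall (0 : B → C3) r) (Vf B m) :=
      (Vf_contDiff m).locallyLipschitz.locallyLipschitzOn
    obtain ⟨K, hK⟩ := LocallyLipschitzOn.exists_lipschitzOnWith_of_compact
      (isCompact_closedBall (0 : B → C3) r) h1
    refine ⟨K, fun x hx y hy => ?_⟩
    exact hK (x := (x : B → C3)) (by simpa using hx) (y := (y : B → C3)) (by simpa using hy)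
  -- the initial value
  let x0' : B → C3 := fun k => V k
  have hx0 : x0' ∈ Esp B := by
    have hext : ∀ k, ext B x0' k = if k ∈ B then V k else 0 := by
      intro k
      by_cases h : k ∈ B
      · rw [ext_of_mem _ h, if_pos h]
      · rw [ext_of_notMem _ h, if_neg h]
    refine ⟨fun k i => ?_, fun k => ?_⟩
    · rw [hext, hext]
      by_cases h : k ∈ B
      · rw [if_pos h, if_pos ((hBn k).2 h)]; exact hVs k i
      · rw [if_neg h, if_neg (fun h' => h ((hBn k).1 h'))]; simp
    · rw [hext]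
      split_ifs
      · exact hVd k
      · simp [dt]
  let x0 : Esp B := ⟨x0', hx0⟩
  have hgal : ∀ (T' : ℝ) (x : ℝ → Esp B), 0 < T' → x 0 = x0 →
      (∀ t ∈ Icc 0 T', HasDerivWithinAt x (X (x t)) (Icc 0 T') t) →
      Gal m B T' V (fun t => ext B (x t)) := by
    intro T' x _ hx0 hx
    refine ⟨hB, fun t _ k hk => ext_of_notMem _ hk, fun t _ => (x t).2.1, fun t _ => (x t).2.2,
      fun k hk => ?_, fun k hk t ht => ?_⟩
    · rw [hx0, ext_of_mem _ hk]
    · have h1 : HasDerivWithinAt (fun s => ((x s : Esp B) : B → C3)) (Vf B m (x t)) (Icc 0 T') t :=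
        ((Esp B).subtypeL.hasFDerivAt.comp_hasDerivWithinAt t (hx t ht))
      have h2 := hasDerivWithinAt_pi.1 h1 ⟨k, hk⟩
      have e1 : (fun s => ext B (x s) k) = fun s => ((x s : Esp B) : B → C3) ⟨k, hk⟩ := by
        funext s; rw [ext_of_mem _ hk]
      rw [e1]
      refine h2.congr_deriv ?_
      unfold Vf
      rw [ext_of_mem _ hk]
  set r : ℝ := √(∑ k ∈ B, en (V k)) with hr
  obtain ⟨x, hx0', hx⟩ := Ode.exists_sol X hlip x0 T r hT (fun T' x hT' _ h0 hx t ht => by
    have hG := hgal T' x hT' h0 hx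
    have hE := hG.energy hm0 ht
    have h3 : ‖((x t : Esp B) : B → C3)‖ ≤ r := by
      rw [pi_norm_le_iff_of_nonneg (Real.sqrt_nonneg _)]
      intro k
      apply Real.le_sqrt_of_sq_le
      have h4 : ‖(x t : B → C3) k‖ ^ 2 ≤ en (ext B (x t) k) := by
        rw [ext_of_mem _ k.2]; exact norm_sq_le_en _
      refine h4.trans (le_trans ?_ hE)
      exact Finset.single_le_sum (f := fun k => en (ext B (x t) k)) (fun _ _ => en_nonneg _) k.2
    exact h3)
  exact ⟨_, hgal T x hT hx0' hx⟩

end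

end Pool.Agent.K1H29.SH
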