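import Pool.Agent.H356R3.NS.Defs

/-!
# The periodic Navier-Stokes equations with additional linear damping
-/

open Set MeasureTheory
open scoped ContDiff

namespace Pool.Agent.K1H29.SH

open Pool.Agent.H356R3.NS (R3 pd)

/-- The Fourier coefficients `∫_{[0,1]³} f(x) exp(-2πi k·x) dx` of a real function. -/
noncomputable def four (f : R3 → ℝ) (k : Fin 3 → ℤ) : ℂ :=
  ∫ x in Icc (0 : R3) 1,
    (f x : ℂ) * Complex.exp (-(2 * Real.pi * Complex.I * ∑ j, (k j : ℂ) * (x j : ℂ)))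

/-- The Fourier multiplier `d(D)`: the function `∑_k d(k) f^(k) exp(2πi k·x)`. -/
noncomputable def mult (d : (Fin 3 → ℤ) → ℝ) (f : R3 → ℝ) (x : R3) : ℝ :=
  (∑' k, (d k : ℂ) * four f k *
    Complex.exp (2 * Real.pi * Complex.I * ∑ j, (k j : ℂ) * (x j : ℂ))).re

/-- The Euclidean norm of a frequency. -/
noncomputable def fn (k : Fin 3 → ℤ) : ℝ := Real.sqrt (∑ i, (k i : ℝ) ^ 2)

/-- `(u, p)` is an admissible periodic solution of the Navier-Stokes equations with viscosity `ν`, additional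
linear damping `d(D)`, zero force and initial velocity `v`: `u` and `p` are `C^∞` on `ℝ³ × [0,∞)` (with
one-sided time derivatives at `t = 0`), `ℤ³`-periodic in `x`, satisfy
`∂_t u_i + ∑_j u_j ∂_j u_i = ν Δ u_i - d(D) u_i - ∂_i p` and `div u = 0` for all `t ≥ 0` and `x`, and
`u(·,0) = v`. -/
structure AdmD (ν : ℝ) (d : (Fin 3 → ℤ) → ℝ) (v : R3 → R3) (u : ℝ → R3 → R3) (p : ℝ → R3 → ℝ) :
    Prop where
  smooth_u : ContDiffOn ℝ ∞ (fun z : ℝ × R3 => u z.1 z.2) (Ici 0 ×ˢ univ)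
  smooth_p : ContDiffOn ℝ ∞ (fun z : ℝ × R3 => p z.1 z.2) (Ici 0 ×ˢ univ)
  periodic_u : ∀ t, 0 ≤ t → ∀ x j, u t (x + Pi.single j 1) = u t x
  periodic_p : ∀ t, 0 ≤ t → ∀ x j, p t (x + Pi.single j 1) = p t x
  momentum : ∀ t, 0 ≤ t → ∀ x i,
    derivWithin (fun s => u s x i) (Ici 0) t + ∑ j, u t x j * pd j (fun y => u t y i) x
      = ν * ∑ j, pd j (pd j fun y => u t y i) x - mult d (fun y => u t y i) x - pd i (p t) x
  divFree : ∀ t, 0 ≤ t → ∀ x, ∑ i, pd i (fun y => u t y i) x = 0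
  initial : u 0 = v

end Pool.Agent.K1H29.SH
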