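import Pool.Agent.K1H29.SH.Win

/-!
# The quantitative criterion
-/

open Set Filter Topology

namespace Pool.Agent.K1H29.SH

open Pool.Agent.H356R3.NS

variable {v : R3 → R3}

/-- The quantitative criterion for one initial velocity. -/
theorem quant (hv : Data v) {c : ℝ} (hc : 0 < c) :
    ∃ n0 : ℕ, ∀ (ν : ℝ) (d : K → ℝ) (μ : ℕ → ℝ), 0 ≤ ν → (∀ k, 0 ≤ d k) → (∀ k, d (-k) = d k) →
      (∃ (C : ℝ) (r : ℕ), ∀ k, d k ≤ C * (1 + fn k) ^ r) →
      (∀ n k, (2 : ℝ) ^ n ≤ fn k → μ n ≤ 4 * Real.pi ^ 2 * ν * fn k ^ 2 + d k) →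
      (∀ n, n0 < n → c ≤ μ n) → Tendsto μ atTop atTop →
      (∃ n1, 3 * 10 ^ 8 * √(energy v) < ∑ n ∈ Finset.Ioc n0 n1, μ n / (2 : ℝ) ^ ((5 / 2 : ℝ) * n)) →
      ∃ u p, AdmD ν d v u p := by
  obtain ⟨Cd, hC3⟩ := hv.hV 3
  have hCd : 0 ≤ Cd := (hC3 ∅).trans' (by simp)
  have hep := eps_pos
  have hlp := lam_pos
  obtain ⟨n0, hn0⟩ := pow_unbounded_of_one_lt (512 * Cd / (eps * c) ^ 2) (by norm_num : (1 : ℝ) < 2)
  refine ⟨n0, fun ν d μ hν hd0 hde ⟨C, r, hdp⟩ hμm hμc hμt ⟨n1, hn1⟩ => ?_⟩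
  simp only [← lam_pow] at hn1
  rw [div_lt_iff₀ (by positivity)] at hn0
  refine core (n0 := n0 + 1) (n1 := n1 + 1) (μ := fun i => max 0 (μ (i - 1))) hν hd0 hde hdp hv
    (fun i => le_max_left _ _) (fun i k hik => ?_) (fun R => ?_) hC3 (fun i h1 h2 => ?_) ?_
  · refine max_le ?_ (hμm _ _ ((half hik.le).trans (nn_le_nk k)))
    have := hd0 k
    positivity
  · obtain ⟨n, hn⟩ := (hμt.eventually_gt_atTop R).exists
    exact ⟨n + 1, lt_max_of_lt_right (by simpa using hn)⟩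
  · have h3 : c ≤ μ (i - 1) := hμc _ (by omega)
    have h4 : (eps * c) ^ 2 ≤ (eps * max 0 (μ (i - 1))) ^ 2 := by
      apply pow_le_pow_left₀ (by positivity)
      exact mul_le_mul_of_nonneg_left (h3.trans (le_max_right _ _)) hep.le
    calc 512 * Cd < 2 ^ n0 * (eps * c) ^ 2 := hn0
      _ ≤ 2 ^ i * (eps * max 0 (μ (i - 1))) ^ 2 := by
          apply mul_le_mul _ h4 (by positivity) (by positivity)
          exact pow_le_pow_right₀ (by norm_num) (by omega)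
      _ = _ := by ring
  · have e0 : ∑ i ∈ Finset.Ioc (n0 + 1) (n1 + 1), max 0 (μ (i - 1)) / lam ^ i
        = ∑ n ∈ Finset.Ioc n0 n1, μ n / lam ^ n / lam := by
      symm
      refine Finset.sum_bij (fun i _ => i + 1) (fun i hi => ?_) (fun i _ j _ h => by omega)
        (fun i hi => ?_) fun i hi => ?_
      · rw [Finset.mem_Ioc] at hi ⊢; omega
      · rw [Finset.mem_Ioc] at hi
        exact ⟨i - 1, by rw [Finset.mem_Ioc]; omega, by omega⟩
      · rw [Finset.mem_Ioc] at hi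
        have h1 : 0 ≤ μ i := hc.le.trans (hμc i hi.1)
        rw [Nat.add_sub_cancel, max_eq_right h1, pow_succ, div_div]
    rw [e0, ← Finset.sum_div, lt_div_iff₀ hlp]
    refine lt_of_le_of_lt ?_ hn1
    have e1 : (512 * 8000 + 9 / eps) = 49096000 := by unfold eps; norm_num
    have e2 : lam ≤ 6 := by
      unfold lam
      rw [Real.sqrt_le_left (by norm_num)]; norm_num
    rw [e1]
    have hs := Real.sqrt_nonneg (energy v)
    nlinarith

end Pool.Agent.K1H29.SH
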