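import Mathlib

/-!
# A hierarchy of differential inequalities

`F n` is the energy of the scales `≥ n`. The rate of the dissipation at the scale `n` is `μ n`; the flux of
energy through the scale `n` is at most `C (∑_{j ≤ n} lam ^ j √(F j)) F (n - 2)`. If the sum of the numbers
`μ n / lam ^ n` is large compared with the square root of the energy then, at one scale, the energy is
small compared with the dissipation.
-/

open Set

namespace Pool.Agent.K1H29.SH

lemma mvi {f f' : ℝ → ℝ} {T a b K : ℝ}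
    (hd : ∀ t ∈ Icc 0 T, HasDerivWithinAt f (f' t) (Icc 0 T) t)
    (ha : 0 ≤ a) (hab : a ≤ b) (hb : b ≤ T) (hK : ∀ t ∈ Icc a b, f' t ≤ K) :
    f b - f a ≤ K * (b - a) := by
  have hsub : Icc a b ⊆ Icc 0 T := Icc_subset_Icc ha hb
  have key := image_le_of_deriv_right_le_deriv_boundary (f := f) (f' := f') (a := a) (b := b)
    (fun t ht => ((hd t (hsub ht)).continuousWithinAt).mono hsub)
    (fun t ht => by
      have h1 := hd t (hsub (Ico_subset_Icc_self ht))
      exact h1.mono_of_mem_nhdsWithin (Filter.mem_of_superset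
        (Icc_mem_nhdsGE_of_mem ht) hsub))
    (B := fun t => f a + K * (t - a)) (B' := fun _ => K) (by simp)
    (by fun_prop)
    (fun t _ => by
      have : HasDerivAt (fun t : ℝ => f a + K * (t - a)) K t := by
        simpa using (((hasDerivAt_id t).sub_const a).const_mul K).const_add (f a)
      exact this.hasDerivWithinAt)
    (fun t ht => hK t (Ico_subset_Icc_self ht)) (right_mem_Icc.2 hab)
  linarith

/-- The hierarchy. -/
structure Hi (C lam E T : ℝ) (μ : ℕ → ℝ) (F : ℕ → ℝ → ℝ) : Prop where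
  nn : ∀ n, ∀ t ∈ Icc 0 T, 0 ≤ F n t
  mono : ∀ n, ∀ t ∈ Icc 0 T, F (n + 1) t ≤ F n t
  en : ∀ t ∈ Icc 0 T, F 0 t ≤ E
  der : ∀ n, ∃ D : ℝ → ℝ, ∀ t ∈ Icc 0 T, HasDerivWithinAt (F n) (D t) (Icc 0 T) t ∧
    ∀ i, n ≤ i → D t ≤ -(2 * (μ i * F i t)) +
      C * (∑ j ∈ Finset.range (n + 1), lam ^ j * √(F j t)) * F (n - 2) t

/-- The hierarchy, together with the maxima `X n` of `F n`, at `tm n`, and the majorant `y`. -/
structure Hy (C lam T : ℝ) (μ : ℕ → ℝ) (F : ℕ → ℝ → ℝ) (tm X y : ℕ → ℝ) : Prop where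
  hC : 1 ≤ C
  hl : 4 ≤ lam
  μ0 : ∀ n, 0 ≤ μ n
  nn : ∀ n, ∀ t ∈ Icc 0 T, 0 ≤ F n t
  anti : ∀ m n, m ≤ n → ∀ t ∈ Icc 0 T, F n t ≤ F m t
  tmI : ∀ n, tm n ∈ Icc 0 T
  tmX : ∀ n, F n (tm n) = X n
  leX : ∀ n, ∀ t ∈ Icc 0 T, F n t ≤ X n
  y0 : ∀ n, 0 ≤ y n
  Xy : ∀ n, X n ≤ y n ^ 2
  ya : ∀ n, y (n + 1) ≤ y n
  yh : ∀ n, y n ≤ 2 * y (n + 1)
  yx : ∀ n, y n / 2 < y (n + 1) → X (n + 1) = y (n + 1) ^ 2
  der : ∀ n, ∃ D : ℝ → ℝ, ∀ t ∈ Icc 0 T, HasDerivWithinAt (F n) (D t) (Icc 0 T) t ∧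
    ∀ i, n ≤ i → D t ≤ -(2 * (μ i * F i t)) + 2 * C * lam ^ n * y n * F (n - 2) t

section

variable {C lam T : ℝ} {μ : ℕ → ℝ} {F : ℕ → ℝ → ℝ} {tm X y : ℕ → ℝ}

lemma Hy.yanti (h : Hy C lam T μ F tm X y) {m n : ℕ} (hmn : m ≤ n) : y n ≤ y m :=
  antitone_nat_of_succ_le h.ya hmn

lemma Hy.Xanti (h : Hy C lam T μ F tm X y) {m n : ℕ} (hmn : m ≤ n) : X n ≤ X m := by
  rw [← h.tmX n]
  exact (h.anti m n hmn _ (h.tmI n)).trans (h.leX m _ (h.tmI n))

lemma Hy.X0 (h : Hy C lam T μ F tm X y) (n : ℕ) : 0 ≤ X n := by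
  rw [← h.tmX n]; exact h.nn n _ (h.tmI n)

/-- look-back time -/
noncomputable def ta (C lam Y : ℝ) (i : ℕ) : ℝ := 1 / (16 * C * lam ^ i * Y)

lemma ta_pos {C lam Y : ℝ} (hC : 1 ≤ C) (hl : 4 ≤ lam) (hY : 0 < Y) (i : ℕ) : 0 < ta C lam Y i := by
  unfold ta
  have : 0 < lam := by linarith
  have : 0 < C := by linarith
  positivity

lemma ta_flux {C lam Y : ℝ} (hC : 1 ≤ C) (hl : 4 ≤ lam) (hY : 0 < Y) (i : ℕ) :
    2 * C * lam ^ i * Y ^ 3 * ta C lam Y i = Y ^ 2 / 8 := by
  unfold ta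
  have : 0 < lam := by linarith
  have : 0 < C := by linarith
  field_simp
  norm_num

lemma ta_flux' {C lam Y : ℝ} (hC : 1 ≤ C) (hl : 4 ≤ lam) (hY : 0 < Y) {b i : ℕ} (hbi : b ≤ i) :
    2 * C * lam ^ b * Y ^ 3 * ta C lam Y i = Y ^ 2 / (8 * lam ^ (i - b)) := by
  unfold ta
  have : 0 < lam := by linarith
  have : 0 < C := by linarith
  obtain ⟨d, rfl⟩ := Nat.exists_eq_add_of_le hbi
  rw [Nat.add_sub_cancel_left, pow_add]
  field_simp
  norm_num

lemma ta_step {C lam Y : ℝ} (hC : 1 ≤ C) (hl : 4 ≤ lam) (hY : 0 < Y) (i : ℕ) :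
    3 / 4 * ta C lam Y i ≤ ta C lam Y i - ta C lam Y (i + 1) := by
  have h1 : ta C lam Y (i + 1) = ta C lam Y i / lam := by
    unfold ta
    rw [pow_succ]
    have : 0 < lam := by linarith
    field_simp
  have h2 := ta_pos hC hl hY i
  have h3 : ta C lam Y i / lam ≤ ta C lam Y i / 4 := div_le_div_of_nonneg_left h2.le (by norm_num) hl
  rw [h1]
  linarith

/-- the energy at the scale `i` during the look-back -/
lemma Hy.back (h : Hy C lam T μ F tm X y) {α n i : ℕ} {Y : ℝ} (hY : 0 < Y) (hyα : y α ≤ Y)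
    (hi : α + 2 < i) (hin : i ≤ n) (hXn : Y ^ 2 / 4 ≤ X n) {s : ℝ} (hs0 : 0 ≤ s) (hs : s ≤ tm n)
    (hs2 : tm n - s ≤ ta C lam Y i) : Y ^ 2 / 8 ≤ F i s := by
  have hl0 : 0 < lam := by linarith [h.hl]
  have hC0 : 0 < C := by linarith [h.hC]
  obtain ⟨D, hD⟩ := h.der i
  have h1 : F i (tm n) - F i s ≤ (2 * C * lam ^ i * Y ^ 3) * (tm n - s) := by
    refine mvi (fun t ht => (hD t ht).1) hs0 hs (h.tmI n).2 fun t ht => ?_
    have ht' : t ∈ Icc 0 T := ⟨hs0.trans ht.1, ht.2.trans (h.tmI n).2⟩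
    refine ((hD t ht').2 i le_rfl).trans ?_
    have e1 : 0 ≤ μ i * F i t := mul_nonneg (h.μ0 i) (h.nn i t ht')
    have e2 : F (i - 2) t ≤ Y ^ 2 := by
      refine (h.leX _ t ht').trans ((h.Xy _).trans ?_)
      exact pow_le_pow_left₀ (h.y0 _) ((h.yanti (by omega)).trans hyα) 2
    have e3 : y i ≤ Y := (h.yanti (by omega)).trans hyα
    have e4 : 2 * C * lam ^ i * y i * F (i - 2) t ≤ 2 * C * lam ^ i * Y * Y ^ 2 := by
      apply mul_le_mul _ e2 (h.nn _ t ht') (by positivity)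
      exact mul_le_mul_of_nonneg_left e3 (by positivity)
    nlinarith
  have h2 : X n ≤ F i (tm n) := by
    rw [← h.tmX n]; exact h.anti i n hin _ (h.tmI n)
  have h3 : (2 * C * lam ^ i * Y ^ 3) * (tm n - s) ≤ Y ^ 2 / 8 := by
    rw [← ta_flux h.hC h.hl hY i]
    exact mul_le_mul_of_nonneg_left hs2 (by positivity)
  linarith

lemma Hy.late (h : Hy C lam T μ F tm X y) {α n i : ℕ} {Y : ℝ} (hY : 0 < Y) (hyα : y α ≤ Y)
    (hi : α + 2 < i) (hin : i ≤ n) (hXn : Y ^ 2 / 4 ≤ X n) (hin0 : F i 0 < Y ^ 2 / 8) :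
    ta C lam Y i ≤ tm n := by
  by_contra hc
  push Not at hc
  have := h.back hY hyα hi hin hXn (s := 0) le_rfl (h.tmI n).1 (by linarith)
  linarith

/-- The look-back inequality. -/
lemma Hy.star (h : Hy C lam T μ F tm X y) {α b b' n : ℕ} {Y : ℝ} (hY : 0 < Y) (hyα : y α ≤ Y)
    (hb : α + 2 < b) (hbb : b < b') (hbn : b' ≤ n) (hXn : Y ^ 2 / 4 ≤ X n)
    (hin0 : ∀ i, α + 2 < i → i ≤ n → F i 0 < Y ^ 2 / 8) :
    X n + 3 * Y / (256 * C) * ∑ j ∈ Finset.Icc b' n, μ j / lam ^ j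
      ≤ X b + Y ^ 2 / (8 * lam ^ (b' - b)) := by
  have hl0 : 0 < lam := by linarith [h.hl]
  have hC0 : 0 < C := by linarith [h.hC]
  obtain ⟨D, hD⟩ := h.der b
  set G : ℝ := 2 * C * lam ^ b * Y ^ 3 with hG
  have hlate : ∀ i, α + 2 < i → i ≤ n → ta C lam Y i ≤ tm n := fun i hi hin =>
    h.late hY hyα hi hin hXn (hin0 i hi hin)
  have hder : ∀ i, b ≤ i → α + 2 < i → i ≤ n → ∀ t, 0 ≤ t → t ≤ tm n → tm n - t ≤ ta C lam Y i →
      D t ≤ -(μ i * Y ^ 2 / 4) + G := by
    intro i hbi hi hin t ht0 ht1 ht2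
    have ht' : t ∈ Icc 0 T := ⟨ht0, ht1.trans (h.tmI n).2⟩
    refine ((hD t ht').2 i hbi).trans ?_
    have e1 := h.back hY hyα hi hin hXn ht0 ht1 ht2
    have e1' : μ i * (Y ^ 2 / 8) ≤ μ i * F i t := mul_le_mul_of_nonneg_left e1 (h.μ0 i)
    have e2 : F (b - 2) t ≤ Y ^ 2 := by
      refine (h.leX _ t ht').trans ((h.Xy _).trans ?_)
      exact pow_le_pow_left₀ (h.y0 _) ((h.yanti (by omega)).trans hyα) 2
    have e3 : y b ≤ Y := (h.yanti (by omega)).trans hyα
    have e4 : 2 * C * lam ^ b * y b * F (b - 2) t ≤ 2 * C * lam ^ b * Y * Y ^ 2 := by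
      apply mul_le_mul _ e2 (h.nn _ t ht') (by positivity)
      exact mul_le_mul_of_nonneg_left e3 (by positivity)
    have e5 : 2 * C * lam ^ b * Y * Y ^ 2 = G := by rw [hG]; ring
    linarith
  have key : ∀ d i, i + d = n → b' ≤ i →
      X n + 3 * Y / (256 * C) * ∑ j ∈ Finset.Icc i n, μ j / lam ^ j
        ≤ F b (tm n - ta C lam Y i) + G * ta C lam Y i := by
    intro d
    induction d with
    | zero =>
      intro i hi hb'i
      have hin : i = n := by omega
      subst hin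
      have hlt := hlate i (by omega) le_rfl
      have htp := ta_pos h.hC h.hl hY i
      have h1 := mvi (fun t ht => (hD t ht).1) (a := tm i - ta C lam Y i) (b := tm i)
        (K := -(μ i * Y ^ 2 / 4) + G) (by linarith) (by linarith) (h.tmI i).2 (fun t ht =>
          hder i (by omega) (by omega) le_rfl t (by linarith [ht.1]) ht.2 (by linarith [ht.1]))
      have h2 : X i ≤ F b (tm i) := by
        rw [← h.tmX i]; exact h.anti b i (by omega) _ (h.tmI i)
      rw [Finset.Icc_self, Finset.sum_singleton]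
      have h3 : 3 * Y / (256 * C) * (μ i / lam ^ i) ≤ μ i * Y ^ 2 / 4 * ta C lam Y i := by
        have e : μ i * Y ^ 2 / 4 * ta C lam Y i = 4 * Y / (256 * C) * (μ i / lam ^ i) := by
          unfold ta
          field_simp
          ring
        rw [e]
        apply mul_le_mul_of_nonneg_right _ (div_nonneg (h.μ0 i) (by positivity))
        apply div_le_div_of_nonneg_right _ (by positivity)
        linarith
      have h4 : (-(μ i * Y ^ 2 / 4) + G) * (tm i - (tm i - ta C lam Y i))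
          = -(μ i * Y ^ 2 / 4 * ta C lam Y i) + G * ta C lam Y i := by ring
      rw [h4] at h1
      linarith
    | succ d ih =>
      intro i hi hb'i
      have hIH := ih (i + 1) (by omega) (by omega)
      have hlt := hlate i (by omega) (by omega)
      have htp := ta_pos h.hC h.hl hY i
      have htp' := ta_pos h.hC h.hl hY (i + 1)
      have hst := ta_step h.hC h.hl hY i
      have h1 := mvi (fun t ht => (hD t ht).1) (a := tm n - ta C lam Y i)
        (b := tm n - ta C lam Y (i + 1))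
        (K := -(μ i * Y ^ 2 / 4) + G) (by linarith) (by linarith) (by linarith [(h.tmI n).2])
        (fun t ht => hder i (by omega) (by omega) (by omega) t (by linarith [ht.1])
          (by linarith [ht.2]) (by linarith [ht.1]))
      have hsum : ∑ j ∈ Finset.Icc i n, μ j / lam ^ j
          = μ i / lam ^ i + ∑ j ∈ Finset.Icc (i + 1) n, μ j / lam ^ j := by
        rw [← Finset.insert_Icc_add_one_left_eq_Icc (by omega : i ≤ n), Finset.sum_insert]
        simp
      have h3 : 3 * Y / (256 * C) * (μ i / lam ^ i)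
          ≤ μ i * Y ^ 2 / 4 * (ta C lam Y i - ta C lam Y (i + 1)) := by
        have e : 3 * Y / (256 * C) * (μ i / lam ^ i)
            = μ i * Y ^ 2 / 4 * (3 / 4 * ta C lam Y i) := by
          unfold ta
          field_simp
          ring
        rw [e]
        apply mul_le_mul_of_nonneg_left hst
        have := h.μ0 i
        positivity
      rw [hsum, mul_add]
      have h4 : (-(μ i * Y ^ 2 / 4) + G) *
          (tm n - ta C lam Y (i + 1) - (tm n - ta C lam Y i))
          = -(μ i * Y ^ 2 / 4 * (ta C lam Y i - ta C lam Y (i + 1)))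
            + (G * ta C lam Y i - G * ta C lam Y (i + 1)) := by ring
      rw [h4] at h1
      linarith
  have hfin := key (n - b') b' (by omega) le_rfl
  have h5 : F b (tm n - ta C lam Y b') ≤ X b := by
    apply h.leX
    have h6 := hlate b' (by omega) hbn
    have h7 := ta_pos h.hC h.hl hY b'
    exact ⟨by linarith, by linarith [(h.tmI n).2]⟩
  rw [hG, ta_flux' h.hC h.hl hY hbb.le] at hfin
  linarith

/-- block endpoints -/
def nb (α β j : ℕ) : ℕ := min (α + 3 + j ^ 2) β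

lemma nb_le (α β j : ℕ) : nb α β j ≤ β := min_le_right _ _

lemma nb_mono (α β : ℕ) {j k : ℕ} (h : j ≤ k) : nb α β j ≤ nb α β k := by
  unfold nb
  have : j ^ 2 ≤ k ^ 2 := Nat.pow_le_pow_left h 2
  omega

/-- one block -/
lemma Hy.block (h : Hy C lam T μ F tm X y) {α β : ℕ} {Y : ℝ} (hY : 0 < Y) (hyα : y α ≤ Y)
    (hXn : ∀ n, α < n → n ≤ β → Y ^ 2 / 4 ≤ X n)
    (hin0 : ∀ i, α + 2 < i → i ≤ β → F i 0 < Y ^ 2 / 8) (j : ℕ) :
    3 * Y / (256 * C) * ∑ i ∈ Finset.Ioc (nb α β (j + 1)) (nb α β (j + 2)), μ i / lam ^ i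
      ≤ X (nb α β j) - X (nb α β (j + 2)) + Y ^ 2 / 8 * (1 / 2) ^ (j + 1) := by
  have hl0 : 0 < lam := by linarith [h.hl]
  have hC0 : 0 < C := by linarith [h.hC]
  have hX := h.Xanti (nb_mono α β (show j ≤ j + 2 by omega))
  by_cases hc : β ≤ α + 3 + (j + 1) ^ 2
  · have e1 : nb α β (j + 1) = β := min_eq_right hc
    have e2 : nb α β (j + 2) = β := by
      have := nb_mono α β (show j + 1 ≤ j + 2 by omega)
      have := nb_le α β (j + 2)
      omega
    rw [e1, e2, Finset.Ioc_self, Finset.sum_empty, mul_zero]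
    rw [e2] at hX
    have : 0 ≤ Y ^ 2 / 8 * (1 / 2) ^ (j + 1) := by positivity
    linarith
  · push Not at hc
    have hj : j ^ 2 ≤ (j + 1) ^ 2 := Nat.pow_le_pow_left (by omega) 2
    have e0 : nb α β j = α + 3 + j ^ 2 := min_eq_left (by omega)
    have e1 : nb α β (j + 1) = α + 3 + (j + 1) ^ 2 := min_eq_left (by omega)
    have e2 : nb α β (j + 1) < nb α β (j + 2) := by
      rw [e1]
      unfold nb
      refine lt_min ?_ hc
      have : (j + 1) ^ 2 < (j + 2) ^ 2 := Nat.pow_lt_pow_left (by omega) (by norm_num)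
      omega
    have hst := h.star hY hyα (b := nb α β j) (b' := nb α β (j + 1) + 1) (n := nb α β (j + 2))
      (by omega) (by omega) (by omega)
      (hXn _ (by omega) (nb_le _ _ _)) (fun i hi hin => hin0 i hi (hin.trans (nb_le _ _ _)))
    have e3 : Finset.Icc (nb α β (j + 1) + 1) (nb α β (j + 2))
        = Finset.Ioc (nb α β (j + 1)) (nb α β (j + 2)) := by
      ext i; simp [Finset.mem_Icc, Finset.mem_Ioc, Nat.succ_le_iff]
    rw [e3] at hst
    have e4 : Y ^ 2 / (8 * lam ^ (nb α β (j + 1) + 1 - nb α β j)) ≤ Y ^ 2 / 8 * (1 / 2) ^ (j + 1) := by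
      have f1 : (2 : ℝ) ^ (j + 1) ≤ lam ^ (nb α β (j + 1) + 1 - nb α β j) := by
        have f2 : j + 1 ≤ nb α β (j + 1) + 1 - nb α β j := by
          rw [e1, e0]
          have : (j + 1) ^ 2 = j ^ 2 + 2 * j + 1 := by ring
          omega
        calc (2 : ℝ) ^ (j + 1) ≤ 2 ^ (nb α β (j + 1) + 1 - nb α β j) :=
              pow_le_pow_right₀ (by norm_num) f2
          _ ≤ _ := pow_le_pow_left₀ (by norm_num) (by linarith [h.hl]) _
      rw [one_div, inv_pow, ← div_eq_mul_inv, div_div]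
      apply div_le_div_of_nonneg_left (by positivity) (by positivity)
      exact mul_le_mul_of_nonneg_left f1 (by norm_num)
    linarith

/-- one level -/
lemma Hy.level (h : Hy C lam T μ F tm X y) {α β : ℕ} {Y ε : ℝ} (hε : 0 < ε) (hY : 0 < Y)
    (hyα : y α ≤ Y) (hαβ : α ≤ β)
    (hXn : ∀ n, α < n → n ≤ β → Y ^ 2 / 4 ≤ X n)
    (hin0 : ∀ i, α + 2 < i → i ≤ β → F i 0 < Y ^ 2 / 8)
    (hc : ∀ n, α < n → n ≤ β → ε * (μ n / lam ^ n) ≤ y n) :
    ∑ i ∈ Finset.Ioc α β, μ i / lam ^ i ≤ (256 * C + 4 / ε) * Y := by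
  have hl0 : 0 < lam := by linarith [h.hl]
  have hC0 : 0 < C := by linarith [h.hC]
  have ind : ∀ J, 3 * Y / (256 * C) *
      ∑ i ∈ Finset.Ioc (nb α β 1) (nb α β (J + 1)), μ i / lam ^ i
      ≤ X (nb α β 0) + X (nb α β 1) - X (nb α β J) - X (nb α β (J + 1))
        + Y ^ 2 / 8 * (1 - (1 / 2) ^ J) := by
    intro J
    induction J with
    | zero => simp
    | succ J ih =>
      have hb := h.block hY hyα hXn hin0 J
      rw [← Finset.sum_Ioc_consecutive _ (nb_mono α β (show 1 ≤ J + 1 by omega))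
        (nb_mono α β (show J + 1 ≤ J + 1 + 1 by omega)), mul_add]
      have e : (1 : ℝ) / 2 * (1 / 2) ^ J = (1 / 2) ^ (J + 1) := by ring
      have e' : ((1 : ℝ) / 2) ^ J = 2 * (1 / 2) ^ (J + 1) := by ring
      rw [e'] at ih
      show 3 * Y / (256 * C) * _ + 3 * Y / (256 * C) *
        ∑ i ∈ Finset.Ioc (nb α β (J + 1)) (nb α β (J + 2)), μ i / lam ^ i ≤ _
      show _ ≤ X (nb α β 0) + X (nb α β 1) - X (nb α β (J + 1)) - X (nb α β (J + 2))
        + Y ^ 2 / 8 * (1 - (1 / 2) ^ (J + 1))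
      nlinarith
  have hβ : nb α β (β + 1) = β := by
    refine min_eq_right ?_
    have : β ≤ (β + 1) ^ 2 := by nlinarith
    omega
  have hI := ind β
  rw [hβ] at hI
  have hXle : ∀ j, α < nb α β j ∨ α = β → X (nb α β j) ≤ Y ^ 2 := by
    intro j _
    have : α ≤ nb α β j := by unfold nb; omega
    refine (h.Xy _).trans (pow_le_pow_left₀ (h.y0 _) ((h.yanti this).trans hyα) 2)
  have hX0 : X (nb α β 0) ≤ Y ^ 2 := by
    have : α ≤ nb α β 0 := by unfold nb; omega
    exact (h.Xy _).trans (pow_le_pow_left₀ (h.y0 _) ((h.yanti this).trans hyα) 2)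
  have hX1 : X (nb α β 1) ≤ Y ^ 2 := by
    have : α ≤ nb α β 1 := by unfold nb; omega
    exact (h.Xy _).trans (pow_le_pow_left₀ (h.y0 _) ((h.yanti this).trans hyα) 2)
  have h2 := h.X0 (nb α β β)
  have h3 := h.X0 β
  have h4 : Y ^ 2 / 8 * (1 - (1 / 2) ^ β) ≤ Y ^ 2 := by
    have : (0 : ℝ) ≤ (1 / 2) ^ β := by positivity
    nlinarith [sq_nonneg Y]
  have h5 : 3 * Y / (256 * C) * ∑ i ∈ Finset.Ioc (nb α β 1) β, μ i / lam ^ i ≤ 3 * Y ^ 2 := by
    linarith
  have h6 : ∑ i ∈ Finset.Ioc (nb α β 1) β, μ i / lam ^ i ≤ 256 * C * Y := by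
    have e : 3 * Y ^ 2 = 3 * Y / (256 * C) * (256 * C * Y) := by field_simp
    rw [e] at h5
    exact le_of_mul_le_mul_left h5 (by positivity)
  have h7 : ∑ i ∈ Finset.Ioc α (nb α β 1), μ i / lam ^ i ≤ 4 / ε * Y := by
    have f1 : ∀ i ∈ Finset.Ioc α (nb α β 1), μ i / lam ^ i ≤ Y / ε := by
      intro i hi
      rw [Finset.mem_Ioc] at hi
      rw [le_div_iff₀ hε, mul_comm]
      exact (hc i hi.1 (hi.2.trans (nb_le _ _ _))).trans ((h.yanti hi.1.le).trans hyα)
    refine (Finset.sum_le_sum f1).trans ?_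
    rw [Finset.sum_const, Nat.card_Ioc, nsmul_eq_mul]
    have f2 : nb α β 1 - α ≤ 4 := by unfold nb; omega
    have f3 : ((nb α β 1 - α : ℕ) : ℝ) ≤ 4 := by exact_mod_cast f2
    calc ((nb α β 1 - α : ℕ) : ℝ) * (Y / ε) ≤ 4 * (Y / ε) :=
          mul_le_mul_of_nonneg_right f3 (by positivity)
      _ = 4 / ε * Y := by ring
  have h8 : α ≤ nb α β 1 := by unfold nb; omega
  rw [← Finset.sum_Ioc_consecutive _ h8 (nb_le α β 1)]
  linarith

/-- all levels -/
lemma Hy.total (h : Hy C lam T μ F tm X y) {n0 n1 : ℕ} {ε : ℝ} (hε : 0 < ε)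
    (hin0 : ∀ i, n0 < i → i ≤ n1 → F i 0 < (ε * (μ i / lam ^ i)) ^ 2 / 8)
    (hc : ∀ n, n0 < n → n ≤ n1 → ε * (μ n / lam ^ n) ≤ y n) :
    ∀ d α, n0 ≤ α → α + d = n1 →
      ∑ i ∈ Finset.Ioc α n1, μ i / lam ^ i ≤ (512 * C + 9 / ε) * y α := by
  have hl0 : 0 < lam := by linarith [h.hl]
  have hC0 : 0 < C := by linarith [h.hC]
  have hcp : ∀ n, n0 < n → n ≤ n1 → 0 < ε * (μ n / lam ^ n) := by
    intro n h1 h2
    have h3 := hin0 n h1 h2
    have h4 := h.nn n 0 ⟨le_rfl, ((h.tmI 0).1).trans (h.tmI 0).2⟩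
    have h5 : ε * (μ n / lam ^ n) ≠ 0 := by
      intro h0
      rw [h0] at h3
      norm_num at h3
      linarith
    have h6 : 0 ≤ ε * (μ n / lam ^ n) := mul_nonneg hε.le (div_nonneg (h.μ0 n) (by positivity))
    exact lt_of_le_of_ne h6 (Ne.symm h5)
  intro d
  induction d using Nat.strong_induction_on with
  | _ d ih =>
    intro α hα hd
    rcases Nat.eq_zero_or_pos d with hd0 | hd0
    · have : α = n1 := by omega
      rw [this, Finset.Ioc_self, Finset.sum_empty]
      have := h.y0 n1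
      positivity
    have hyp : 0 < y α := by
      have := hcp (α + 1) (by omega) (by omega)
      have := hc (α + 1) (by omega) (by omega)
      have := h.ya α
      linarith
    have hinit : ∀ i, α + 2 < i → i ≤ n1 → F i 0 < y α ^ 2 / 8 := by
      intro i hi hi1
      have h1 := hin0 i (by omega) hi1
      have h2 := hc i (by omega) hi1
      have h3 := hcp i (by omega) hi1
      have h4 := h.yanti (show α ≤ i by omega)
      have h5 : (ε * (μ i / lam ^ i)) ^ 2 ≤ y α ^ 2 := pow_le_pow_left₀ h3.le (h2.trans h4) 2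
      linarith
    by_cases hlev : y α / 2 < y n1
    · have hX : ∀ n, α < n → n ≤ n1 → y α ^ 2 / 4 ≤ X n := by
        intro n h1 h2
        obtain ⟨k, rfl⟩ := Nat.exists_eq_add_of_lt h1
        have h3 : y (α + k) ≤ y α := h.yanti (by omega)
        have h4 : y n1 ≤ y (α + k + 1) := h.yanti h2
        rw [h.yx (α + k) (by linarith)]
        nlinarith
      have := h.level hε hyp le_rfl (by omega : α ≤ n1) hX hinit
        (fun n h1 h2 => hc n (by omega) h2)
      refine this.trans ?_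
      apply mul_le_mul_of_nonneg_right _ hyp.le
      have : 4 / ε ≤ 9 / ε := div_le_div_of_nonneg_right (by norm_num) hε.le
      linarith
    · push Not at hlev
      have hex : ∃ n, α < n ∧ y n ≤ y α / 2 := ⟨n1, by omega, hlev⟩
      classical
      set γ := Nat.find hex with hγ
      have hγ1 : α < γ ∧ y γ ≤ y α / 2 := Nat.find_spec hex
      have hγ2 : γ ≤ n1 := Nat.find_min' hex ⟨by omega, hlev⟩
      have hγ3 : ∀ n, α < n → n < γ → y α / 2 < y n := by
        intro n h1 h2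
        have := Nat.find_min hex h2
        push Not at this
        exact this h1
      have hX : ∀ n, α < n → n ≤ γ - 1 → y α ^ 2 / 4 ≤ X n := by
        intro n h1 h2
        obtain ⟨k, rfl⟩ := Nat.exists_eq_add_of_lt h1
        have h3 : y (α + k) ≤ y α := h.yanti (by omega)
        have h4 : y α / 2 < y (α + k + 1) := hγ3 _ (by omega) (by omega)
        rw [h.yx (α + k) (by linarith)]
        nlinarith
      have hA := h.level hε hyp le_rfl (by omega : α ≤ γ - 1) hX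
        (fun i h1 h2 => hinit i h1 (by omega)) (fun n h1 h2 => hc n (by omega) (by omega))
      have hB := ih (n1 - γ) (by omega) γ (by omega) (by omega)
      have hCγ : μ γ / lam ^ γ ≤ y α / 2 / ε := by
        rw [le_div_iff₀ hε, mul_comm]
        exact (hc γ (by omega) hγ2).trans hγ1.2
      have hsplit : ∑ i ∈ Finset.Ioc α n1, μ i / lam ^ i
          = ∑ i ∈ Finset.Ioc α (γ - 1), μ i / lam ^ i + (μ γ / lam ^ γ
            + ∑ i ∈ Finset.Ioc γ n1, μ i / lam ^ i) := by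
        rw [← Finset.sum_Ioc_consecutive _ (show α ≤ γ - 1 by omega) (show γ - 1 ≤ n1 by omega),
          ← Finset.sum_Ioc_consecutive _ (show γ - 1 ≤ γ by omega) hγ2]
        have : Finset.Ioc (γ - 1) γ = {γ} := by
          ext i; simp only [Finset.mem_Ioc, Finset.mem_singleton]; omega
        rw [this, Finset.sum_singleton]
      rw [hsplit]
      have hD : (512 * C + 9 / ε) * y γ ≤ (512 * C + 9 / ε) * (y α / 2) :=
        mul_le_mul_of_nonneg_left hγ1.2 (by positivity)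
      have hE : (256 * C + 4 / ε) * y α + (y α / 2 / ε + (512 * C + 9 / ε) * (y α / 2))
          = (512 * C + 9 / ε) * y α := by field_simp; ring
      linarith

end

/-- The majorant. -/
noncomputable def maj (X : ℕ → ℝ) : ℕ → ℝ
  | 0 => √(X 0)
  | n + 1 => max (√(X (n + 1))) (maj X n / 2)

theorem hier {C lam ε E T : ℝ} {μ : ℕ → ℝ} {F : ℕ → ℝ → ℝ} (hC : 1 ≤ C) (hl : 4 ≤ lam) (hε : 0 < ε)
    (hT : 0 ≤ T) (hμ : ∀ n, 0 ≤ μ n) (h : Hi C lam E T μ F) {n0 n1 : ℕ}
    (hin0 : ∀ i, n0 < i → i ≤ n1 → F i 0 < (ε * (μ i / lam ^ i)) ^ 2 / 8)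
    (hdiv : (512 * C + 9 / ε) * √E < ∑ i ∈ Finset.Ioc n0 n1, μ i / lam ^ i) :
    ∃ n, n0 < n ∧ n ≤ n1 ∧ ∀ j ≤ n, ∀ t ∈ Icc 0 T, √(F j t) ≤ 2 ^ (n - j) * (ε * (μ n / lam ^ n)) := by
  have hl0 : 0 < lam := by linarith
  have hC0 : 0 < C := by linarith
  have h0T : (0 : ℝ) ∈ Icc 0 T := ⟨le_rfl, hT⟩
  have hcont : ∀ n, ContinuousOn (F n) (Icc 0 T) := fun n => by
    obtain ⟨D, hD⟩ := h.der n
    exact fun t ht => (hD t ht).1.continuousWithinAt
  have hmax : ∀ n, ∃ s ∈ Icc 0 T, ∀ t ∈ Icc 0 T, F n t ≤ F n s := fun n => by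
    obtain ⟨s, hs, hs'⟩ := isCompact_Icc.exists_isMaxOn ⟨0, h0T⟩ (hcont n)
    exact ⟨s, hs, fun t ht => hs' ht⟩
  choose tm htm hX using hmax
  set X : ℕ → ℝ := fun n => F n (tm n) with hXd
  set y : ℕ → ℝ := maj X with hyd
  have X0 : ∀ n, 0 ≤ X n := fun n => h.nn n _ (htm n)
  have hanti : ∀ m n, m ≤ n → ∀ t ∈ Icc 0 T, F n t ≤ F m t := by
    intro m n hmn t ht
    induction n, hmn using Nat.le_induction with
    | base => exact le_rfl
    | succ n _ ih => exact (h.mono n t ht).trans ih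
  have Xa : ∀ n, X (n + 1) ≤ X n := fun n => (h.mono n _ (htm (n + 1))).trans (hX n _ (htm (n + 1)))
  have sy : ∀ n, √(X n) ≤ y n := by
    intro n
    cases n with
    | zero => exact le_rfl
    | succ n => exact le_max_left _ _
  have y0 : ∀ n, 0 ≤ y n := fun n => (Real.sqrt_nonneg _).trans (sy n)
  have ya : ∀ n, y (n + 1) ≤ y n := by
    intro n
    refine max_le ((Real.sqrt_le_sqrt (Xa n)).trans (sy n)) ?_
    have := y0 n
    show y n / 2 ≤ y n
    linarith
  have yh : ∀ n, y n ≤ 2 * y (n + 1) := by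
    intro n
    have : y n / 2 ≤ y (n + 1) := le_max_right _ _
    linarith
  have yx : ∀ n, y n / 2 < y (n + 1) → X (n + 1) = y (n + 1) ^ 2 := by
    intro n hn
    have h1 : y (n + 1) = √(X (n + 1)) := by
      have h2 : y (n + 1) = max (√(X (n + 1))) (y n / 2) := rfl
      rcases max_choice (√(X (n + 1))) (y n / 2) with h3 | h3
      · rw [h2, h3]
      · rw [h2, h3] at hn; exact absurd hn (lt_irrefl _)
    rw [h1, Real.sq_sqrt (X0 _)]
  have hFy : ∀ n, ∀ t ∈ Icc 0 T, √(F n t) ≤ y n := fun n t ht =>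
    (Real.sqrt_le_sqrt (hX n t ht)).trans (sy n)
  have hsum : ∀ n, ∀ t ∈ Icc 0 T, ∑ j ∈ Finset.range (n + 1), lam ^ j * √(F j t)
      ≤ 2 * lam ^ n * y n := by
    intro n t ht
    induction n with
    | zero =>
      simp only [Finset.range_one, Finset.sum_singleton, pow_zero, one_mul, zero_add]
      have := hFy 0 t ht
      have := y0 0
      linarith
    | succ n ih =>
      rw [Finset.sum_range_succ]
      have h1 : lam ^ (n + 1) * √(F (n + 1) t) ≤ lam ^ (n + 1) * y (n + 1) :=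
        mul_le_mul_of_nonneg_left (hFy _ t ht) (by positivity)
      have h2 : 2 * lam ^ n * y n ≤ lam ^ (n + 1) * y (n + 1) := by
        calc 2 * lam ^ n * y n ≤ 2 * lam ^ n * (2 * y (n + 1)) :=
              mul_le_mul_of_nonneg_left (yh n) (by positivity)
          _ = 4 * (lam ^ n * y (n + 1)) := by ring
          _ ≤ lam * (lam ^ n * y (n + 1)) :=
              mul_le_mul_of_nonneg_right hl (mul_nonneg (by positivity) (y0 _))
          _ = _ := by ring
      linarith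
  have hy : Hy C lam T μ F tm X y :=
    { hC := hC
      hl := hl
      μ0 := hμ
      nn := h.nn
      anti := hanti
      tmI := htm
      tmX := fun n => rfl
      leX := hX
      y0 := y0
      Xy := fun n => by
        rw [← Real.sq_sqrt (X0 n)]
        exact pow_le_pow_left₀ (Real.sqrt_nonneg _) (sy n) 2
      ya := ya
      yh := yh
      yx := yx
      der := fun n => by
        obtain ⟨D, hD⟩ := h.der n
        refine ⟨D, fun t ht => ⟨(hD t ht).1, fun i hi => ((hD t ht).2 i hi).trans ?_⟩⟩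
        have h1 : C * (∑ j ∈ Finset.range (n + 1), lam ^ j * √(F j t)) ≤ 2 * C * lam ^ n * y n := by
          calc _ ≤ C * (2 * lam ^ n * y n) := mul_le_mul_of_nonneg_left (hsum n t ht) hC0.le
            _ = _ := by ring
        have h2 := mul_le_mul_of_nonneg_right h1 (h.nn (n - 2) t ht)
        linarith }
  by_contra hcon
  push Not at hcon
  have hpow : ∀ j n, j ≤ n → y j ≤ 2 ^ (n - j) * y n := by
    intro j n hjn
    induction n, hjn using Nat.le_induction with
    | base => simp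
    | succ n hn ih =>
      calc y j ≤ 2 ^ (n - j) * y n := ih
        _ ≤ 2 ^ (n - j) * (2 * y (n + 1)) := mul_le_mul_of_nonneg_left (yh n) (by positivity)
        _ = 2 ^ (n + 1 - j) * y (n + 1) := by
          rw [show n + 1 - j = (n - j) + 1 by omega, pow_succ]; ring
  have hc : ∀ n, n0 < n → n ≤ n1 → ε * (μ n / lam ^ n) ≤ y n := by
    intro n h1 h2
    obtain ⟨j, hj, t, ht, hlt⟩ := hcon n h1 h2
    have h3 := hFy j t ht
    have h4 := hpow j n hj
    have h5 : (2 : ℝ) ^ (n - j) * (ε * (μ n / lam ^ n)) < 2 ^ (n - j) * y n := by linarith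
    exact (lt_of_mul_lt_mul_left h5 (by positivity)).le
  have hn01 : n0 ≤ n1 := by
    by_contra hn
    push Not at hn
    rw [Finset.Ioc_eq_empty (by omega), Finset.sum_empty] at hdiv
    have : 0 ≤ (512 * C + 9 / ε) * √E := by positivity
    linarith
  have htot := hy.total hε hin0 hc (n1 - n0) n0 le_rfl (by omega)
  have hyE : y n0 ≤ √E := by
    refine (hy.yanti (Nat.zero_le n0)).trans ?_
    exact Real.sqrt_le_sqrt (h.en _ (htm 0))
  have : (512 * C + 9 / ε) * y n0 ≤ (512 * C + 9 / ε) * √E :=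
    mul_le_mul_of_nonneg_left hyE (by positivity)
  linarith

end Pool.Agent.K1H29.SH
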