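import Pool.Agent.K1H29.SH.Lim
import Pool.Agent.K1H29.SH.Defs
import Pool.Agent.H459R3.NS.Phys2

/-!
# From the Fourier side to smooth periodic solutions
-/

open Set ComplexConjugate Filter Topology MeasureTheory
open scoped ContDiff

namespace Pool.Agent.K1H29.SH

open Pool.Agent.H356R3.NS

/-- Solutions on the Fourier side. -/
structure FSol (m : K → ℝ) (V : K → C3) (u : Fam) : Prop where
  cf : CF u
  rd : ∀ p : ℕ, ∃ b : K → ℝ, Summable b ∧ ∀ k t, pw k ^ p * ‖u k t‖ ≤ b k
  sym : SymF u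
  div : ∀ k t, dt k (u k t) = 0
  init : ∀ k, u k 0 = V k
  der : ∀ k t, 0 < t → HasDerivAt (u k) (-(m k) • u k t + Bt u k t) t

variable {m d : K → ℝ} {V : K → C3} {u : Fam}

lemma FSol.rdi (h : FSol m V u) (i : Fin 3) : RD (cf' u i) := by
  intro p
  obtain ⟨b, hb, hb'⟩ := h.rd p
  refine ⟨b, hb, fun k t => le_trans ?_ (hb' k t)⟩
  exact mul_le_mul_of_nonneg_left (norm_le_pi_norm _ i) (by have := pw_pos k; positivity)

/-- the time derivative -/
noncomputable def dV (ν : ℝ) (d : K → ℝ) (u : Fam) (i : Fin 3) : SFam := fun k t =>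
  dU (4 * Real.pi ^ 2 * ν) u i k t + (-(d k) : ℂ) * cf' u i k t

lemma FSol.deri {ν : ℝ} (h : FSol (fun k => 4 * Real.pi ^ 2 * ν * Pool.Agent.H356R3.NS.sq k + d k) V u) (i : Fin 3) (k : K)
    {t : ℝ} (ht : 0 < t) : HasDerivAt (cf' u i k) (dV ν d u i k t) t := by
  have h5 := (hasDerivAt_pi.1 (h.der k t ht)) i
  refine h5.congr_deriv ?_
  unfold dV dU Bt Bf cvv cv at' cf'
  simp only [Pi.add_apply, Pi.smul_apply, Complex.real_smul]
  push_cast
  ring

lemma TT_dV {ν : ℝ} {n : ℕ} {C : ℝ} {r : ℕ} (hd : ∀ k, |d k| ≤ C * pw k ^ r)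
    (h : ∀ i, TT n (cf' u i)) (i : Fin 3) : TT n (dV ν d u i) := by
  unfold dV
  refine TT.add (TT_dU h i) (TT.mul (C := C) (r := r) (fun k => ?_) (h i))
  rw [norm_neg, Complex.norm_real, Real.norm_eq_abs]
  exact hd k

lemma FSol.tt {ν : ℝ} (h : FSol (fun k => 4 * Real.pi ^ 2 * ν * Pool.Agent.H356R3.NS.sq k + d k) V u) {C : ℝ} {r : ℕ}
    (hd : ∀ k, |d k| ≤ C * pw k ^ r) (n : ℕ) : ∀ i : Fin 3, TT n (cf' u i) := by
  have hc : ∀ i k, Continuous fun t => u k t i := fun i k => (continuous_apply i).comp (h.cf k)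
  induction n with
  | zero => intro i; exact ⟨h.rdi i, hc i⟩
  | succ n ih =>
    intro i
    exact ⟨h.rdi i, hc i, dV ν d u i, fun k t ht => h.deri i k ht, TT_dV hd ih i⟩

lemma ee_eq_ex (k : K) (x : E3) : H459R3.NS.ee k x = ex k x := by
  unfold H459R3.NS.ee ex H459R3.NS.ph
  push_cast
  rfl

lemma four_eq_fc (v : R3 → R3) (i : Fin 3) (k : K) : four (fun y => v y i) k = fc v k i := rfl

lemma four_eq_fr (f : R3 → ℝ) (k : K) : four f k = H459R3.NS.fr f k := by
  unfold four H459R3.NS.fr H459R3.NS.fc H459R3.NS.cube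
  congr 1
  funext x
  rw [ee_eq_ex, ← ex_neg_eq, mul_comm]

/-- the Fourier coefficients of the real part of a Fourier series -/
lemma four_series {c : K → ℂ} (hc : Summable c) (hs : ∀ k, c (-k) = star (c k)) (k : K) :
    four (fun y => (∑' l, c l * ex l y).re) k = c k := by
  have him : ∀ y : E3, (∑' l, c l * ex l y).im = 0 := by
    intro y
    have h1 : star (∑' l, c l * ex l y) = ∑' l, c l * ex l y := by
      rw [tsum_star, ← (Equiv.neg K).tsum_eq]
      refine tsum_congr fun k => ?_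
      simp only [Equiv.neg_apply, star_mul', hs, ex_neg, star_star]
    rw [Complex.star_def] at h1
    exact Complex.conj_eq_iff_im.1 h1
  have h2 := H459R3.NS.integral_ee_S (-k) hc
  rw [neg_neg] at h2
  rw [← h2]
  unfold four H459R3.NS.cube
  congr 1
  funext x
  rw [ex_neg_eq, ee_eq_ex, mul_comm]
  congr 1
  unfold H459R3.NS.S
  simp only [ee_eq_ex]
  apply Complex.ext
  · simp
  · simp [him]

lemma GS_zero (c : SFam) (t : ℝ) (x : E3) : GS 0 c t x = ∑' k, c k t * ex k x := by
  unfold GS SF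
  simp

theorem FSol.physical {ν : ℝ} (h : FSol (fun k => 4 * Real.pi ^ 2 * ν * Pool.Agent.H356R3.NS.sq k + d k) V u) {C : ℝ} {r : ℕ}
    (hd : ∀ k, |d k| ≤ C * pw k ^ r) {v : R3 → R3}
    (hv : ∀ x i, (∑' k, V k i * ex k x).re = v x i) :
    AdmD ν d v (fun t x i => (GS 0 (cf' u i) t x).re) (fun t x => (GS 0 (PF u) t x).re) := by
  have hT : ∀ n i, TT n (cf' u i) := fun n i => h.tt hd n i
  have hP : ∀ n, TT n (PF u) := fun n => TT_PF (hT n)
  have hdT : ∀ n i, TT n (dV ν d u i) := fun n i => TT_dV hd (hT n) i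
  have hsym : ∀ i k t, cf' u i (-k) t = star (cf' u i k t) := fun i k t => h.sym t k i
  have hre : ∀ i t x, (GS 0 (cf' u i) t x).im = 0 := fun i t x => SF_real (hsym i) _
  refine ⟨?_, ?_, ?_, ?_, ?_, ?_, ?_⟩
  · rw [contDiffOn_pi]
    intro i
    exact GS_smooth_re 0 fun n => hT n i
  · exact GS_smooth_re 0 hP
  · intro t _ x j
    funext i
    simp only [GS_periodic]
  · intro t _ x j
    simp only [GS_periodic]
  · intro t ht x i
    have hd0 : HasDerivWithinAt (fun s => (GS 0 (cf' u i) s x).re)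
        (GS 0 (dV ν d u i) t x + ∑ j, GS 0 (dS j (cf' u i)) t x * (-((0 : E3) j) : ℝ)).re (Ici 0) t := by
      have h1 := GS_dt 0 (hT 1 i) (fun k t ht => h.deri i k ht) (hdT 0 i) ht x
      exact Complex.reCLM.hasFDerivAt.comp_hasDerivWithinAt t h1
    have hdw := hd0.derivWithin (uniqueDiffOn_Ici (0 : ℝ) t ht)
    have e1 : ∀ j, pd j (fun y => (GS 0 (cf' u i) t y).re) = fun x => (GS 0 (dS j (cf' u i)) t x).re :=
      fun j => funext fun x => pd_GS' 0 (hT 1 i) ht j x
    have e2 : ∀ j, pd j (fun x => (GS 0 (dS j (cf' u i)) t x).re) x = (GS 0 (dS j (dS j (cf' u i))) t x).re :=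
      fun j => pd_GS' 0 ((hT 1 i).dS j) ht j x
    have e3 : pd i (fun x => (GS 0 (PF u) t x).re) x = (GS 0 (dS i (PF u)) t x).re := pd_GS' 0 (hP 1) ht i x
    -- the damping
    have hcs : Summable fun k => cf' u i k t := by
      obtain ⟨b, hb, hb'⟩ := (h.rdi i).summ
      exact Summable.of_norm_bounded hb fun k => hb' k t
    have e4 : mult d (fun y => (GS 0 (cf' u i) t y).re) x
        = (GS 0 (fun k t => (d k : ℂ) * cf' u i k t) t x).re := by
      unfold mult
      rw [GS_zero]
      congr 1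
      refine tsum_congr fun k => ?_
      have h6 : four (fun y => (GS 0 (cf' u i) t y).re) k = cf' u i k t := by
        simp only [GS_zero]
        exact four_series hcs (fun k => hsym i k t) k
      rw [h6]
      rfl
    rw [hdw]
    simp only [e1, e2, e3, e4]
    have hRDd : RD (fun k t => (d k : ℂ) * cf' u i k t) :=
      (h.rdi i).mul (C := C) (r := r) (fun k => by
        rw [Complex.norm_real, Real.norm_eq_abs]; exact hd k)
    have key : GS 0 (dV ν d u i) t x + ∑ j, GS 0 (cf' u j) t x * GS 0 (dS j (cf' u i)) t x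
        = (ν : ℂ) * ∑ j, GS 0 (dS j (dS j (cf' u i))) t x + (-1) * GS 0 (dS i (PF u)) t x
          + (-1) * GS 0 (fun k t => (d k : ℂ) * cf' u i k t) t x := by
      have hU : ∀ i, RD (cf' u i) := fun i => (hT 0 i).rd
      have hdS : ∀ j, RD (dS j (cf' u i)) := fun j => ((hT 0 i).dS j).rd
      have hdd : ∀ j, RD (dS j (dS j (cf' u i))) := fun j => (((hT 0 i).dS j).dS j).rd
      have hdP : RD (dS i (PF u)) := ((hP 0).dS i).rd
      have hcv : ∀ j, RD (cvv (cf' u j) (dS j (cf' u i))) := fun j => (hU j).conv (hdS j)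
      have hsum1 : RD fun k t => ∑ j, cvv (cf' u j) (dS j (cf' u i)) k t :=
        (TT.sum (n := 0) Finset.univ fun j _ => (hT 0 j).conv ((hT 0 i).dS j)).rd
      have hsum2 : RD fun k t => ∑ j, dS j (dS j (cf' u i)) k t :=
        (TT.sum (n := 0) Finset.univ fun j _ => ((hT 0 i).dS j).dS j).rd
      have hone : ∀ (z : ℂ) {c : SFam}, RD c → RD fun k t => z * c k t := fun z c hc =>
        hc.mul (C := ‖z‖) (r := 0) (p := fun _ => z) fun k => by simp
      unfold GS
      have m1 : ∀ j, SF (cf' u j) (t, x - t • 0) * SF (dS j (cf' u i)) (t, x - t • 0)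
          = SF (cvv (cf' u j) (dS j (cf' u i))) (t, x - t • 0) := fun j => SF_mul (hU j) (hdS j) _
      simp only [m1]
      rw [← SF_sum hcv, ← SF_sum hdd, ← SF_const_mul, ← SF_const_mul, ← SF_const_mul,
        ← SF_add (hdT 0 i).rd hsum1, ← SF_add (hone _ hsum2) (hone _ hdP),
        ← SF_add ((hone _ hsum2).add (hone _ hdP)) (hone _ hRDd)]
      congr 1
      funext k t
      have := fourier_eq (ν := ν) hU h.div i k t
      unfold dV
      linear_combination this
    have keyre := congrArg Complex.re key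
    simp only [Complex.add_re, Complex.re_sum, Complex.mul_re, hre, Complex.ofReal_re, Complex.ofReal_im,
      Complex.neg_re, Complex.one_re, Complex.neg_im, Complex.one_im, Pi.zero_apply, neg_zero] at keyre ⊢
    have e5 : ∑ j : Fin 3, ((GS 0 (dS j (cf' u i)) t x).re * 0 - (GS 0 (dS j (cf' u i)) t x).im * 0) = 0 := by
      simp
    rw [e5]
    simp only [zero_mul, sub_zero] at keyre
    linarith
  · intro t ht x
    have e1 : ∀ i, pd i (fun y => (GS 0 (cf' u i) t y).re) x = (GS 0 (dS i (cf' u i)) t x).re :=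
      fun i => pd_GS' 0 (hT 1 i) ht i x
    simp only [e1]
    rw [← Complex.re_sum]
    have : ∑ i, GS 0 (dS i (cf' u i)) t x = 0 := by
      unfold GS
      rw [← SF_sum fun i => ((hT 0 i).dS i).rd]
      have h0 : (fun k t => ∑ j, dS j (cf' u j) k t) = fun _ _ => (0 : ℂ) := by
        funext k t
        have := h.div k t
        unfold dt at this
        unfold dS fj cf'
        calc ∑ j, 2 * Real.pi * Complex.I * (k j : ℂ) * u k t j
            = 2 * Real.pi * Complex.I * ∑ j, (k j : ℂ) * u k t j := by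
              rw [Finset.mul_sum]; exact Finset.sum_congr rfl fun j _ => by ring
          _ = 0 := by rw [this, mul_zero]
      rw [h0]
      simp [SF]
    rw [this]; rfl
  · funext x i
    rw [← hv x i]
    show (GS 0 (cf' u i) 0 x).re = _
    rw [GS_zero]
    simp only [cf', h.init]

end Pool.Agent.K1H29.SH
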