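import Pool.Agent.K1H29.SH.Main

/-!
# Damping of one window of scales
-/

open Set Filter Topology

namespace Pool.Agent.K1H29.SH

open Pool.Agent.H356R3.NS

variable {v : R3 → R3}

lemma energy_nonneg (v : R3 → R3) : 0 ≤ energy v :=
  Finset.sum_nonneg fun i _ => MeasureTheory.integral_nonneg fun x => sq_nonneg _

/-- **Damping of one window of scales.** -/
theorem window {ν : ℝ} (hν : 0 < ν) (hv : Data v) {D : ℝ} (hD : 2 * 10 ^ 9 * √(energy v) < D) :
    ∃ N0 : ℝ, ∀ N, N0 ≤ N → ∀ (d : K → ℝ) (C : ℝ) (r : ℕ), (∀ k, 0 ≤ d k) → (∀ k, d (-k) = d k) →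
      (∀ k, d k ≤ C * (1 + fn k) ^ r) →
      (∀ k, N ≤ fn k → D * N ^ (5 / 2 : ℝ) ≤ 4 * Real.pi ^ 2 * ν * fn k ^ 2 + d k) →
      ∃ u p, AdmD ν d v u p := by
  have hD0 : 0 < D := lt_of_le_of_lt (by positivity) hD
  obtain ⟨Cd, hC3⟩ := hv.hV 3
  have hCd : 0 ≤ Cd := (hC3 ∅).trans' (by simp)
  have hep := eps_pos
  have hlp := lam_pos
  refine ⟨max 1 (512 * Cd / (eps * D) ^ 2), fun N hN d C r hd0 hde hdp hN2 => ?_⟩
  have hN1 : 1 ≤ N := (le_max_left _ _).trans hN
  have hN0 : 0 < N := by linarith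
  have hNC : 512 * Cd / (eps * D) ^ 2 ≤ N := (le_max_right _ _).trans hN
  -- the dyadic scale
  obtain ⟨n, hn1, hn2⟩ : ∃ n : ℕ, N ≤ 2 ^ n ∧ (2 : ℝ) ^ n ≤ 2 * N := by
    classical
    have hex : ∃ n : ℕ, N ≤ 2 ^ n := by
      obtain ⟨n, hn⟩ := pow_unbounded_of_one_lt N (by norm_num : (1 : ℝ) < 2)
      exact ⟨n, hn.le⟩
    refine ⟨Nat.find hex, Nat.find_spec hex, ?_⟩
    rcases Nat.eq_zero_or_pos (Nat.find hex) with h0 | h0
    · rw [h0]; norm_num; linarith
    · have h1 := Nat.find_min hex (m := Nat.find hex - 1) (by omega)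
      push Not at h1
      have e : (2 : ℝ) ^ (Nat.find hex) = 2 * 2 ^ (Nat.find hex - 1) := by
        rw [← pow_succ']; congr 1; omega
      rw [e]; linarith
  have hNp : 1 ≤ N ^ (5 / 2 : ℝ) := Real.one_le_rpow hN1 (by norm_num)
  have hlamN : lam ^ (n + 1) ≤ 32 * N ^ (5 / 2 : ℝ) := by
    rw [lam_pow, Real.rpow_mul (by norm_num)]
    -- `(2 ^ (5/2)) ^ (n + 1) = (2 ^ (n + 1)) ^ (5/2)`
    rw [← Real.rpow_mul (by norm_num), mul_comm, Real.rpow_mul (by norm_num), Real.rpow_natCast]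
    have h4 : (2 : ℝ) ^ (n + 1) ≤ 4 * N := by rw [pow_succ]; linarith
    calc ((2 : ℝ) ^ (n + 1)) ^ (5 / 2 : ℝ) ≤ (4 * N) ^ (5 / 2 : ℝ) :=
          Real.rpow_le_rpow (by positivity) h4 (by norm_num)
      _ = 32 * N ^ (5 / 2 : ℝ) := by
          rw [Real.mul_rpow (by norm_num) hN0.le]
          congr 1
          rw [show (4 : ℝ) = 2 ^ (2 : ℝ) by norm_num, ← Real.rpow_mul (by norm_num)]
          norm_num
  set μ : ℕ → ℝ := fun i => if i = n + 1 then D * N ^ (5 / 2 : ℝ) else Real.pi ^ 2 * ν * 4 ^ i with hμ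
  have hpi := Real.pi_pos
  refine core (n0 := n) (n1 := n + 1) (μ := μ) hν.le hd0 hde hdp hv (fun i => ?_) (fun i k hik => ?_)
    (fun R => ?_) hC3 (fun i h1 h2 => ?_) ?_
  · simp only [hμ]; split_ifs <;> positivity
  · simp only [hμ]
    split_ifs with h
    · apply hN2
      have h1 := nn_le_nk k
      rw [fn_eq]
      rw [h, pow_succ] at hik
      linarith
    · have h1 := nn_le_nk k
      have h2 : (2 : ℝ) ^ i / 2 ≤ nk k := by linarith
      have h3 := pow_le_pow_left₀ (by positivity) h2 2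
      have h4 : (4 : ℝ) ^ i = (2 ^ i) ^ 2 := by rw [← pow_mul, mul_comm, pow_mul]; norm_num
      have h5 : (4 : ℝ) ^ i ≤ 4 * fn k ^ 2 := by
        rw [h4, fn_eq]; linarith [h3, show ((2 : ℝ) ^ i / 2) ^ 2 = (2 ^ i) ^ 2 / 4 by ring]
      have := hd0 k
      have h6 := mul_le_mul_of_nonneg_left h5 (by positivity : 0 ≤ Real.pi ^ 2 * ν)
      linarith
  · obtain ⟨j, hj⟩ := pow_unbounded_of_one_lt (R / (Real.pi ^ 2 * ν)) (by norm_num : (1 : ℝ) < 4)
    refine ⟨max j (n + 2), ?_⟩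
    simp only [hμ]
    rw [if_neg (by omega)]
    rw [div_lt_iff₀ (by positivity)] at hj
    refine hj.trans_le ?_
    rw [mul_comm]
    apply mul_le_mul_of_nonneg_left _ (by positivity)
    exact pow_le_pow_right₀ (by norm_num) (le_max_left _ _)
  · have hi : i = n + 1 := by omega
    simp only [hμ]
    rw [if_pos hi, hi, ← mul_assoc, mul_pow]
    rw [div_le_iff₀ (by positivity)] at hNC
    have e1 : (1 : ℝ) ≤ (N ^ (5 / 2 : ℝ)) ^ 2 := one_le_pow₀ hNp
    have e2 : 2 * N ≤ 2 ^ (n + 1) := by rw [pow_succ]; linarith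
    have e3 : 0 < (eps * D) ^ 2 := by positivity
    calc 512 * Cd ≤ N * (eps * D) ^ 2 := hNC
      _ < (eps * D) ^ 2 * 1 * (2 * N) := by nlinarith [mul_pos hN0 e3]
      _ ≤ _ := by
        apply mul_le_mul _ e2 (by positivity) (by positivity)
        exact mul_le_mul_of_nonneg_left e1 e3.le
  · rw [show Finset.Ioc n (n + 1) = {n + 1} by ext; simp only [Finset.mem_Ioc, Finset.mem_singleton]; omega,
      Finset.sum_singleton]
    simp only [hμ, if_true]
    rw [lt_div_iff₀ (by positivity)]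
    have hs := Real.sqrt_nonneg (energy v)
    have e1 : (512 * 8000 + 9 / eps) = 49096000 := by unfold eps; norm_num
    rw [e1]
    calc 49096000 * √(energy v) * lam ^ (n + 1) ≤ 49096000 * √(energy v) * (32 * N ^ (5 / 2 : ℝ)) :=
          mul_le_mul_of_nonneg_left hlamN (by positivity)
      _ = (1571072000 * √(energy v)) * N ^ (5 / 2 : ℝ) := by ring
      _ < D * N ^ (5 / 2 : ℝ) := by
          apply mul_lt_mul_of_pos_right _ (by positivity)
          linarith

end Pool.Agent.K1H29.SH
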